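import Mathlib
import Pool.Agent.N969.RQ.Defs2

/-!
# Project P21G: the lattice of the quaternion algebra ramified at `7` and the twists of `X_0(21)` by
the positive discriminants `A` in which `7` is inert and `3` is inert or ramified

`λ(D)` is the central value of the twist by `D` divided by the period and multiplied by `√|D|`.  The
classes of discriminants `(sign; χ(3), χ(7))` of root number `+1`:
`Ai = (+;-1,-1)`, `A0 = (+;0,-1)`, `As = (+;1,1)`, `R21r = (+;1,0)`,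
`K0 = (-;-1,1)`, `K3 = (-;0,1)`, `K7 = (-;-1,0)`, `K21 = (-;0,0)`, `Kn = (-;1,-1)`.

Odd and even discriminants are treated together.  `n = A m` is the product of a positive and a
negative discriminant.  All statements are verified numerically.

Chain for `Ai`, `A0`:
* `n = 3 D` (`D` in `Ai`): the pairs `Ai × K3` and `A0 × K0`; `n = 7 D` (`D` in `A0`): the pairs
  `Ai × K21` and `A0 × K7`.
* `BIL` (sums over `T` of signs times local densities = signed pair sums `P7`), `C2`/`C2D` (divisor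
  sums), `C1`/`C1D` (crossing numbers) give the value of the character sums of the symbols.
* `KAPi`: odd symbols `OM`, `OB` of `A` at the cusps `u / m`; `CMPE`: even symbols `EM`, `EB` of `-m`
  at the cusps `u / A`.
* `ORT`, `VAN`, `R7` and the `F_2` identities give the parity.
-/

set_option autoImplicit false

namespace Pool.Agent.N877.P21G

open Finset
open Pool.Agent.Z700 (hh fac)
open Pool.Agent.N969.P15 (V3 tw tb ep2 Qc Qe Ev un psp psp2 c2)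
open Pool.Agent.N969.P17G (sgnE psl psl2 gen gnE chP chM)
open Pool.Agent.N969.RQ (Fd ud ip7 vec7 c7)
open Pool.Agent.N877.P21 (cc Cls0 Cls0e Cl3 Cl3e Cl7 Cl7e Cl21 Cl21e)

noncomputable section

/-! ### the classes -/

/-- `-n` is a fundamental discriminant -/
def Fn (n : ℕ) : Prop := (Squarefree n ∧ n % 4 = 3) ∨ Ev n

/-- `7` is inert in `ℚ(√-n)` -/
def I7 (n : ℕ) : Prop := n % 7 = 1 ∨ n % 7 = 2 ∨ n % 7 = 4

def Ai (A : ℕ) : Prop := Fd A ∧ A % 3 = 2 ∧ jacobiSym A 7 = -1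
def A0 (A : ℕ) : Prop := Fd A ∧ 3 ∣ A ∧ jacobiSym A 7 = -1
def As (A : ℕ) : Prop := Fd A ∧ A % 3 = 1 ∧ jacobiSym A 7 = 1

def K0 (m : ℕ) : Prop := Cls0 m ∨ Cls0e m
def K3 (m : ℕ) : Prop := Cl3 m ∨ Cl3e m
def K7 (m : ℕ) : Prop := Cl7 m ∨ Cl7e m
def K21 (m : ℕ) : Prop := Cl21 m ∨ Cl21e m
def Kn (m : ℕ) : Prop := Fn m ∧ m % 3 = 2 ∧ I7 m

/-- the pairs with `3 ∣ n`, `7` inert -/
def Pr3 (A m : ℕ) : Prop := ((Ai A ∧ K3 m) ∨ (A0 A ∧ K0 m)) ∧ Nat.Coprime A m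

/-- the pairs with `21 ∣ n` -/
def Pr21 (A m : ℕ) : Prop := ((Ai A ∧ K21 m) ∨ (A0 A ∧ K7 m)) ∧ Nat.Coprime A m

/-- the pairs with `3` split, `7` inert in `ℚ(√-n)` -/
def PrI (A m : ℕ) : Prop := Ai A ∧ K0 m ∧ Nat.Coprime A m

/-! ### local densities -/

/-- the factor at `2` -/
def dt (n : ℕ) (b : ℤ) (D : ℕ) : ℤ := if 2 ∣ n then tb b else tw n D

/-- the local densities of the lattice ramified at `7` (`7` inert) -/
def L7 (n : ℕ) (b : ℤ) (D : ℕ) : ℤ := if Odd (D.factorization 7) then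
  dt n b D * ∏ l ∈ (D.primeFactors.erase 2).erase 7, fac n D l else 0

/-- the same with the number of common lines modulo `3` -/
def L37 (n : ℕ) (b : ℤ) (D : ℕ) : ℤ := if Odd (D.factorization 7) then (D.factorization 3 : ℤ) *
  (dt n b D * ∏ l ∈ ((D.primeFactors.erase 2).erase 3).erase 7, fac n D l) else 0

/-- the local densities for `7 ∣ n` (twice the value) -/
def L7r (n : ℕ) (b : ℤ) (D : ℕ) : ℤ := if 7 ∣ D then (1 - hh n D 7) *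
  (dt n b D * ∏ l ∈ (D.primeFactors.erase 2).erase 7, fac n D l) else 0

/-- PC7E: the pair count for even norms (for odd norms see `RQ.S_PC7`) -/
def S_PC7E : Prop := ∀ (n1 n2 : ℕ) (b : ℤ) (D : ℕ), Ev n1 → I7 n1 → 4 ∣ n2 → 0 < D →
  (D : ℤ) = n1 * n2 - b ^ 2 → (c7 n1 b n2 : ℤ) = 4 * L7 n1 b D

/-- PC7r: the pair count for `7 ∣ n1` -/
def S_PC7r : Prop := ∀ (n1 n2 : ℕ) (b : ℤ) (D : ℕ), Squarefree n1 → n1 % 4 = 3 → 7 ∣ n1 → 0 < D →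
  (D : ℤ) = n1 * n2 - b ^ 2 → (c7 n1 b n2 : ℤ) = 2 * L7r n1 b D

/-- PC7rE -/
def S_PC7rE : Prop := ∀ (n1 n2 : ℕ) (b : ℤ) (D : ℕ), Ev n1 → 7 ∣ n1 → 4 ∣ n2 → 0 < D →
  (D : ℤ) = n1 * n2 - b ^ 2 → (c7 n1 b n2 : ℤ) = 2 * L7r n1 b D

/-- the number of pairs with inner product `b` which are proportional modulo `3` -/
def cp3 (n1 b n2 : ℤ) : ℕ := ((vec7 n1 ×ˢ vec7 n2).filter fun q =>
  ip7 q.1 q.2 = b ∧ ∀ i, (3 : ℤ) ∣ n2 * q.1 i - b * q.2 i).card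

/-- CP3: the pairs with a common isotropic line modulo `3`, both norms `2` modulo `3` -/
def S_CP3 : Prop := ∀ (n1 n2 : ℕ) (b : ℤ) (D : ℕ), Fn n1 → (2 ∣ n1 → 4 ∣ n2) → n1 % 3 = 2 → I7 n1 →
  n2 % 3 = 2 → 0 < D → 3 ∣ D → (D : ℤ) = n1 * n2 - b ^ 2 →
  (c7 n1 b n2 : ℤ) + cp3 n1 b n2 = 8 * L37 n1 b D

/-! ### signed pair sums -/

/-- the weight of a vector: the two classes of isotropic lines modulo `3` -/
def w7 (n : ℕ) (v : V3) : ℤ := (if 3 ∣ n then 2 else 1) *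
  ((if (3 : ℤ) ∣ v 1 + v 0 then 1 else 0) - (if (3 : ℤ) ∣ v 1 - v 0 then 1 else 0))

/-- the weighted signed pair sum -/
def P7 (A n : ℕ) : ℤ := ∑ v ∈ vec7 n, ∑ w ∈ vec7 n,
  w7 n v * w7 n w * sgnE 1 A n ((n + ip7 v w) / 2)

/-- the unweighted signed pair sum -/
def X7 (A n : ℕ) : ℤ := ∑ v ∈ vec7 n, ∑ w ∈ vec7 n, sgnE 1 A n ((n + ip7 v w) / 2)

/-- BILI: `3` split, `7` inert -/
def S_BILI : Prop := ∀ A m : ℕ, PrI A m →
  32 * ∑ T ∈ (range (A * m)).filter (fun T => 3 ∣ T ∧ 7 ∣ A * m - T), sgnE 1 A (A * m) T *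
    L37 (A * m) (2 * T - (A * m : ℕ)) (4 * (A * m - T) * T) = P7 A (A * m)

/-- BIL3: `3 ∣ n`, `7` inert -/
def S_BIL3 : Prop := ∀ A m : ℕ, Pr3 A m →
  32 * ∑ T ∈ (range (A * m)).filter (fun T => 7 ∣ T ∧ ¬ 3 ∣ T), sgnE 1 A (A * m) T *
    L7 (A * m) (2 * T - (A * m : ℕ)) (4 * (A * m - T) * T) = - P7 A (A * m)

/-- BIL21: `21 ∣ n` -/
def S_BIL21 : Prop := ∀ A m : ℕ, Pr21 A m →
  8 * ∑ T ∈ (range (A * m)).filter (fun T => 7 ∣ T ∧ ¬ 3 ∣ T), sgnE 1 A (A * m) T *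
    L7r (A * m) (2 * T - (A * m : ℕ)) (4 * (A * m - T) * T) = - P7 A (A * m)

/-! ### divisor sums -/

/-- the divisor sum with level conditions `f`, `g`; left kernel symbols at the primes dividing `A`,
right kernel symbols at the primes dividing `m` -/
def Wd (f g : ℕ → Prop) [DecidablePred f] [DecidablePred g] (A m S T : ℕ) : ℤ :=
  ∑ a ∈ S.divisors.filter f, ∑ a' ∈ T.divisors.filter g,
    (∏ p ∈ A.primeFactors, if p = 2 then psl2 (A * m) a a' (S / a) (T / a')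
      else psl p a a' (S / a) (T / a')) *
    ∏ p ∈ m.primeFactors, if p = 2 then psp2 (A * m) a a' (S / a) (T / a')
      else psp p a a' (S / a) (T / a')

/-- mixed orientation -/
def WM (A m S T : ℕ) : ℤ := Wd (7 ∣ ·) (3 ∣ ·) A m S T

/-- level `7`, prime to `3` -/
def WB (A m S T : ℕ) : ℤ := Wd (¬ 3 ∣ ·) (fun a => 7 ∣ a ∧ ¬ 3 ∣ a) A m S T

/-- both factors divisible by `7`, prime to `3` -/
def WC (A m S T : ℕ) : ℤ := Wd (fun a => 7 ∣ a ∧ ¬ 3 ∣ a) (fun a => 7 ∣ a ∧ ¬ 3 ∣ a) A m S T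

/-- C2, mixed orientation, symbol of `A` -/
def S_C2I : Prop := ∀ A m : ℕ, PrI A m → ∀ T : ℕ, 0 < T → T < A * m → 3 ∣ T → 7 ∣ A * m - T →
  WM A m (A * m - T) T = sgnE 1 A (A * m) T *
    L37 (A * m) (2 * T - (A * m : ℕ)) (4 * (A * m - T) * T)

/-- C2D, mixed orientation, symbol of `-m` -/
def S_C2DI : Prop := ∀ A m : ℕ, PrI A m → ∀ T : ℕ, 0 < T → T < A * m → 3 ∣ T → 7 ∣ A * m - T →
  WM m A (A * m - T) T = - (sgnE 1 A (A * m) T *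
    L37 (A * m) (2 * T - (A * m : ℕ)) (4 * (A * m - T) * T))

/-- C2 for `Ai × K3`, symbol of `A` (the sum vanishes for `3 ∣ T`) -/
def S_C23 : Prop := ∀ A m : ℕ, Ai A → K3 m → Nat.Coprime A m → ∀ T : ℕ, 0 < T → T < A * m →
  WB A m (A * m - T) T = if 7 ∣ T ∧ ¬ 3 ∣ T then - (sgnE 1 A (A * m) T *
    L7 (A * m) (2 * T - (A * m : ℕ)) (4 * (A * m - T) * T)) else 0

/-- C2D for `A0 × K0`, symbol of `-m` -/
def S_C2D3 : Prop := ∀ A m : ℕ, A0 A → K0 m → Nat.Coprime A m → ∀ T : ℕ, 0 < T → T < A * m →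
  WB m A (A * m - T) T = if 7 ∣ T ∧ ¬ 3 ∣ T then - (sgnE 1 A (A * m) T *
    L7 (A * m) (2 * T - (A * m : ℕ)) (4 * (A * m - T) * T)) else 0

/-- C2 for `Ai × K21`, symbol of `A` -/
def S_C221 : Prop := ∀ A m : ℕ, Ai A → K21 m → Nat.Coprime A m → ∀ T : ℕ, 0 < T → T < A * m →
  2 * WB A m (A * m - T) T = if 7 ∣ T ∧ ¬ 3 ∣ T then - (sgnE 1 A (A * m) T *
    L7r (A * m) (2 * T - (A * m : ℕ)) (4 * (A * m - T) * T)) else 0

/-- C2D for `A0 × K7`, symbol of `-m` -/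
def S_C2D21 : Prop := ∀ A m : ℕ, A0 A → K7 m → Nat.Coprime A m → ∀ T : ℕ, 0 < T → T < A * m →
  2 * WC m A (A * m - T) T = if 7 ∣ T ∧ ¬ 3 ∣ T then - (sgnE 1 A (A * m) T *
    L7r (A * m) (2 * T - (A * m : ℕ)) (4 * (A * m - T) * T)) else 0

/-! ### symbols -/

/-- forms of discriminant `N²` with `21 ∣ a` and mixed orientation -/
def cM (N : ℕ) (q : ℤ × ℤ × ℤ) : Prop := q.2.1 ^ 2 - 4 * q.1 * q.2.2 = (N : ℤ) ^ 2 ∧
  (21 : ℤ) ∣ q.1 ∧ (((3 : ℤ) ∣ q.2.1 - N ∧ (7 : ℤ) ∣ q.2.1 + N) ∨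
    ((3 : ℤ) ∣ q.2.1 + N ∧ (7 : ℤ) ∣ q.2.1 - N))

/-- forms of discriminant `N²` with `7 ∣ a`, `3 ∤ a` -/
def cB (N : ℕ) (q : ℤ × ℤ × ℤ) : Prop := q.2.1 ^ 2 - 4 * q.1 * q.2.2 = (N : ℤ) ^ 2 ∧
  (7 : ℤ) ∣ q.1 ∧ ¬ (3 : ℤ) ∣ q.1

/-- the genus character of a form of discriminant `m²`, `-m` a negative discriminant -/
def gnM (m : ℕ) (q : ℤ × ℤ × ℤ) : ℤ :=
  (if 2 ∣ m then (if (2 : ℤ) ∣ q.1 then c2 m q.2.2 else c2 m q.1) else 1) *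
    ∏ p ∈ m.primeFactors.erase 2, gen p q

open Classical in
/-- the odd symbol of `A`, mixed orientation -/
def OM (A : ℕ) (x M : ℤ) : ℤ := ∑ᶠ q : ℤ × ℤ × ℤ,
  if cM A q ∧ 0 < q.1 ∧ q.1 * x ^ 2 + q.2.1 * x * M + q.2.2 * M ^ 2 < 0 then
    (if (3 : ℤ) ∣ q.2.1 - A then 1 else -1) * gnE A q else 0

open Classical in
/-- the odd symbol of `A`, forms with `7 ∣ a`, `3 ∤ a` -/
def OB (A : ℕ) (x M : ℤ) : ℤ := ∑ᶠ q : ℤ × ℤ × ℤ,
  if cB A q ∧ 0 < q.1 ∧ q.1 * x ^ 2 + q.2.1 * x * M + q.2.2 * M ^ 2 < 0 then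
    (if (7 : ℤ) ∣ q.2.1 - A then 1 else -1) * gnE A q else 0

open Classical in
/-- the even symbol of `-m`, mixed orientation -/
def EM (m : ℕ) (x M : ℤ) : ℤ := ∑ᶠ q : ℤ × ℤ × ℤ,
  if cM m q ∧ 0 < q.1 ∧ q.1 * x ^ 2 + q.2.1 * x * M + q.2.2 * M ^ 2 < 0 then gnM m q else 0

open Classical in
/-- the even symbol of `-m`, forms with `7 ∣ a`, `3 ∤ a` -/
def EB (m : ℕ) (x M : ℤ) : ℤ := ∑ᶠ q : ℤ × ℤ × ℤ,
  if cB m q ∧ 0 < q.1 ∧ q.1 * x ^ 2 + q.2.1 * x * M + q.2.2 * M ^ 2 < 0 then gnM m q else 0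

/-- C1, mixed orientation (the discriminants are prime to `21`) -/
def S_C1I : Prop := ∀ A m : ℕ, 1 < A → Fd A → Fn m → Nat.Coprime A m → Nat.Coprime (A * m) 21 →
  ∑ u ∈ un m, chM m u * OM A u m = 2 * ∑ T ∈ range (A * m), WM A m (A * m - T) T

/-- C1 for `Ai × K3`, `Ai × K21` -/
def S_C1B : Prop := ∀ A m : ℕ, Ai A → Fn m → 3 ∣ m → Nat.Coprime A m →
  ∑ u ∈ un m, chM m u * OB A u m = 2 * ∑ T ∈ range (A * m), WB A m (A * m - T) T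

/-- C1D, mixed orientation -/
def S_D1I : Prop := ∀ A m : ℕ, (A = 1 ∨ Fd A) → Fn m → Nat.Coprime A m → Nat.Coprime (A * m) 21 →
  ∑ u ∈ un A, chP A u * EM m u A = 2 * ∑ T ∈ range (A * m), WM m A (A * m - T) T

/-- C1D, mixed orientation, `A = 1`, determinant `2 m` -/
def S_D1I2 : Prop := ∀ m : ℕ, Fn m → Nat.Coprime m 21 →
  2 * EM m 0 1 + EM m 1 2 = 2 * ∑ T ∈ range (2 * m), WM m 1 (2 * m - T) T

/-- C1D for `A0 × K0` -/
def S_D13 : Prop := ∀ A m : ℕ, A0 A → K0 m → Nat.Coprime A m →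
  ∑ u ∈ un A, chP A u * EB m u A = 2 * ∑ T ∈ range (A * m), WB m A (A * m - T) T

/-- C1D for `A0 × K7` and `A = 1` -/
def S_D121 : Prop := ∀ A m : ℕ, (A = 1 ∨ A0 A) → K7 m → Nat.Coprime A m →
  ∑ u ∈ un A, chP A u * EB m u A = ∑ T ∈ range (A * m), WC m A (A * m - T) T

/-- C1D for `A = 1`, `7 ∣ m`, determinant `2 m` -/
def S_D1212 : Prop := ∀ m : ℕ, K7 m →
  2 * EB m 0 1 + EB m 1 2 = ∑ T ∈ range (2 * m), WC m 1 (2 * m - T) T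

/-! ### the diagonal identities for the even symbols -/

/-- C2D for `A = 1`, `K0`: the lattice ramified at `3` -/
def S_C2E : Prop := ∀ m : ℕ, K0 m → ∀ k : ℕ, (k = 1 ∨ k = 2) → ∀ T : ℕ, 0 < T → T < k * m →
  3 ∣ T → 7 ∣ k * m - T →
  WM m 1 (k * m - T) T = - (if 2 ∣ m then
    N877.P21.loc7E m (2 * T - (k * m : ℕ)) (4 * (k * m - T) * T)
    else N877.P21.loc7 m (4 * (k * m - T) * T) +
      if k = 2 ∧ 2 ∣ T then ep2 m * N877.P21.loc7 m ((k * m - T) * T) else 0)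

/-- `72 (T₂ - 3) EM = cc²` -/
def S_DE0 : Prop := ∀ m : ℕ, K0 m → 72 * (EM m 1 2 - EM m 0 1) = cc m ^ 2

/-- the difference of the two lattices for `3` inert, `7 ∣ m` -/
def dif (m : ℕ) (b : ℤ) (D : ℕ) : ℤ :=
  (if 2 ∣ m then N877.P21.locE m b D else N877.P21.loc m D) - L7r m b D

/-- C2D for `A = 1`, `K7`: both lattices -/
def S_C2E7 : Prop := ∀ m : ℕ, K7 m → ∀ k : ℕ, (k = 1 ∨ k = 2) → ∀ T : ℕ, 0 < T → T < k * m →
  2 * WC m 1 (k * m - T) T = if 7 ∣ T then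
    dif m (2 * T - (k * m : ℕ)) (4 * (k * m - T) * T) +
      (if k = 2 ∧ 2 ∣ T ∧ ¬ 2 ∣ m then ep2 m * dif m 0 ((k * m - T) * T) else 0) else 0

/-- the class number formula for the two lattices -/
def S_CN7 : Prop := ∀ m : ℕ, K7 m → N877.P21.rr m = 6 * (vec7 m).card

/-- HE for the lattice ramified at `7` -/
def S_HE7 : Prop := (∀ n : ℕ, n % 4 = 3 → ((vec7 (4 * n)).card : ℤ) = (3 - ep2 n) * (vec7 n).card) ∧
  ∀ m : ℕ, (m % 4 = 1 ∨ m % 4 = 2) → (vec7 (16 * m)).card = 3 * (vec7 (4 * m)).card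

/-- `-144 (T₂ - 3) EB = cc²` -/
def S_DE7 : Prop := ∀ m : ℕ, K7 m → 144 * (EB m 1 2 - EB m 0 1) = - cc m ^ 2

/-! ### comparison with the symbols of the elliptic curve -/

/-- KAPi: the odd symbols of `A` -/
def S_KAPi : Prop := ∀ A : ℕ, Ai A → ∃ c : ℚ, ∀ m : ℕ, Nat.Coprime A m →
  (K0 m → 72 * ((∑ u ∈ un m, chM m u * OM A u m : ℤ) : ℚ) = c * (cc m : ℚ) ^ 2) ∧
  (K3 m → 18 * ((∑ u ∈ un m, chM m u * OB A u m : ℤ) : ℚ) = c * (cc m : ℚ) ^ 2) ∧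
  (K21 m → 36 * ((∑ u ∈ un m, chM m u * OB A u m : ℤ) : ℚ) = c * (cc m : ℚ) ^ 2)

/-- CMPE: the even symbols of `-m` at the cusps `u / A`; `σ = 0` only if the central value of the
twist by `A` vanishes (in fact `σ = - λ(A)`) -/
def CMPE (A : ℕ) (σ : ℝ) : Prop := ∀ m : ℕ, Nat.Coprime A m →
  ((Ai A ∨ As A) → K0 m →
    ((∑ u ∈ un A, chP A u * EM m u A : ℤ) : ℝ) = (EM m 1 2 - EM m 0 1 : ℤ) * σ) ∧
  (A0 A → K0 m →
    ((∑ u ∈ un A, chP A u * EB m u A : ℤ) : ℝ) = -2 * (EM m 1 2 - EM m 0 1 : ℤ) * σ) ∧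
  (A0 A → K7 m →
    ((∑ u ∈ un A, chP A u * EB m u A : ℤ) : ℝ) = (EB m 1 2 - EB m 0 1 : ℤ) * σ)

/-! ### the results on the pair sums -/

/-- KAP for `Ai` -/
def S_KAI : Prop := ∀ A : ℕ, Ai A → ∃ c : ℚ, ∀ m : ℕ, Nat.Coprime A m →
  (K0 m → (P7 A (A * m) : ℚ) = c * (cc m : ℚ) ^ 2) ∧
  (K3 m → (P7 A (A * m) : ℚ) = 4 * c * (cc m : ℚ) ^ 2) ∧
  (K21 m → (P7 A (A * m) : ℚ) = c * (cc m : ℚ) ^ 2)

/-- KAP for `A0` -/
def S_KA0 : Prop := ∀ A : ℕ, A0 A → ∃ c : ℚ, ∀ m : ℕ, Nat.Coprime A m →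
  (K0 m → (P7 A (A * m) : ℚ) = c * (cc m : ℚ) ^ 2) ∧
  (K7 m → 4 * (P7 A (A * m) : ℚ) = c * (cc m : ℚ) ^ 2)

/-! ### orthogonality, vanishing, parity -/

/-- the positive unitary divisors prime to `7` -/
def pd (n : ℕ) : Finset ℕ := by
  classical exact (ud n).filter fun A => (A = 1 ∨ Fd A) ∧ ¬ 7 ∣ A

def S_ORT3 : Prop := ∀ n : ℕ, Fn n → 3 ∣ n → I7 n → ∃ x : ℕ → ℤ, (∀ A ∈ pd n, P7 A n = x A ^ 2) ∧
  (2 : ℤ) ^ (n.primeFactors.card + 2) ∣ (vec7 n).card + ∑ A ∈ pd n, x A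

def S_ORT21 : Prop := ∀ n : ℕ, Fn n → 21 ∣ n → ∃ x : ℕ → ℤ, (∀ A ∈ pd n, P7 A n = x A ^ 2) ∧
  (2 : ℤ) ^ (n.primeFactors.card + 1) ∣ (vec7 n).card + ∑ A ∈ pd n, x A

def S_VAN3 : Prop := ∀ n : ℕ, Fn n → 3 ∣ n → I7 n → ∀ A ∈ pd n, ¬ Pr3 A (n / A) → P7 A n = 0

def S_VAN21 : Prop := ∀ n : ℕ, Fn n → 21 ∣ n → ∀ A ∈ pd n, ¬ Pr21 A (n / A) → P7 A n = 0

/-- the class number criterion -/
def QQ (n : ℕ) : Prop := if 2 ∣ n then Qe n else Qc n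

/-- R7: the parity of the number of vectors, `7` inert -/
def S_R7 : Prop := ∀ n : ℕ, Fn n → I7 n → 4 < n →
  ∃ g : ℤ, ((vec7 n).card : ℤ) = 2 ^ (n.primeFactors.card + 1) * g ∧ (Odd g ↔ QQ n)

/-- R7r: the parity of the number of vectors, `7 ∣ n` -/
def S_R7r : Prop := ∀ n : ℕ, Fn n → 7 ∣ n →
  ∃ g : ℤ, ((vec7 n).card : ℤ) = 2 ^ n.primeFactors.card * g ∧ (Odd g ↔ QQ n)

end

end Pool.Agent.N877.P21G
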