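import Mathlib
import Pool.Agent.N877.P21G.Defs

/-!
# Project P21G: the twists by the negative discriminants `-n` of class `Kn` (`3` split, `7` inert)

Lattice ramified at `7`, vectors weighted with the classes of isotropic lines modulo `3` and the
orientations at `3` and `7`.  `As` is the class of the positive discriminants in which `3` and `7`
split.  All statements are verified numerically.
-/

set_option autoImplicit false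

namespace Pool.Agent.N877.P21G

open Finset
open Pool.Agent.Z700 (hh fac)
open Pool.Agent.N969.P15 (V3 tw tb ep2 Qc Qe Ev un psp psp2 c2)
open Pool.Agent.N969.P17G (sgnE psl psl2 gen gnE chP chM)
open Pool.Agent.N969.RQ (Fd ud ip7 vec7 c7)
open Pool.Agent.N877.P21 (cc Cls0)

noncomputable section

/-- the weight with orientations -/
def wn (v : V3) : ℤ := if (3 : ℤ) ∣ v 1 + v 0 then
  2 * (jacobiSym (2 * v 1 + v 2) 7 * jacobiSym (v 1 + v 2) 3) else 0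

/-- the Gross sum -/
def cn (n : ℤ) : ℤ := ∑ v ∈ vec7 n, wn v

/-- the weighted signed pair sum -/
def N7 (A n : ℕ) : ℤ := ∑ v ∈ vec7 n, ∑ w ∈ vec7 n, wn v * wn w * sgnE 1 A n ((n + ip7 v w) / 2)

/-- the pairs -/
def PrN (A m : ℕ) : Prop := (A = 1 ∨ As A) ∧ Kn m ∧ Nat.Coprime A m

/-- REL: the pairs with a common isotropic line, given residues modulo `3` and `7` -/
def S_RELN : Prop := ∀ n1 n2 : ℕ, n1 % 3 = 2 → n2 % 3 = 2 → ¬ 7 ∣ n1 → ¬ 7 ∣ n2 →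
  ∀ r7 r3 : ℤ, 0 < r7 → r7 < 7 → (7 : ℤ) ∣ r7 ^ 2 - n1 * n2 →
  0 < r3 → r3 < 3 → (3 : ℤ) ∣ r3 ^ 2 - n1 * n2 → ∀ B : ℤ, (n1 : ℤ) * n2 < B ^ 2 → 0 < B →
  4 * ∑ b ∈ (Ioo (-B) B).filter (fun b : ℤ => b % 7 = r7 ∧ b % 3 = r3),
    ((c7 n1 b n2 : ℤ) + cp3 n1 b n2) =
    (vec7 n1).card * (vec7 n2).card - jacobiSym r3 3 * jacobiSym r7 7 * (cn n1 * cn n2)

/-- BIL -/
def S_BILN : Prop := ∀ A m : ℕ, PrN A m →
  32 * ∑ T ∈ (range (A * m)).filter (fun T => 3 ∣ T ∧ 7 ∣ A * m - T), sgnE 1 A (A * m) T *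
    L37 (A * m) (2 * T - (A * m : ℕ)) (4 * (A * m - T) * T) = X7 A (A * m) - N7 A (A * m)

/-- BIL for `A = 1`, determinant `2 m` -/
def S_BILN2 : Prop := ∀ m : ℕ, Kn m →
  32 * ∑ T ∈ (range (2 * m)).filter (fun T => 3 ∣ T ∧ 7 ∣ 2 * m - T),
    L37 m (2 * T - (2 * m : ℕ)) (4 * (2 * m - T) * T) =
  (vec7 (4 * m)).card * (vec7 m).card + cn (4 * m) * cn m

/-- HE -/
def S_HEN : Prop := (∀ n : ℕ, n % 4 = 3 → n % 3 = 2 → ¬ 7 ∣ n → cn (4 * n) = (1 + ep2 n) * cn n) ∧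
  ∀ m : ℕ, (m % 4 = 1 ∨ m % 4 = 2) → m % 3 = 2 → ¬ 7 ∣ m → cn (16 * m) = cn (4 * m)

/-- C2, symbol of `A` -/
def S_C2N : Prop := ∀ A m : ℕ, PrN A m → ∀ T : ℕ, 0 < T → T < A * m → 3 ∣ T → 7 ∣ A * m - T →
  WM A m (A * m - T) T = sgnE 1 A (A * m) T *
    L37 (A * m) (2 * T - (A * m : ℕ)) (4 * (A * m - T) * T)

/-- C2 for `A = 1`, determinant `2 m` -/
def S_C2N2 : Prop := ∀ m : ℕ, Kn m → ∀ T : ℕ, 0 < T → T < 2 * m → 3 ∣ T → 7 ∣ 2 * m - T →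
  WM 1 m (2 * m - T) T = L37 m (2 * T - (2 * m : ℕ)) (4 * (2 * m - T) * T) +
    if 2 ∣ T ∧ ¬ 2 ∣ m then ep2 m * L37 m 0 ((2 * m - T) * T) else 0

/-- DIAG: the diagonal identity (from `P21.S_C1A`, C2N, BILN, HEN) -/
def S_DIAGN : Prop := ∀ m : ℕ, Kn m → 4 * ∑ u ∈ un m, chM m u * N877.P21.Fp u m = cn m ^ 2

/-- the unweighted signed pair sum vanishes -/
def S_XN : Prop := ∀ A m : ℕ, As A → Kn m → Nat.Coprime A m → X7 A (A * m) = 0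

/-- KAPs: the odd symbol of `A` in `As` -/
def S_KAPs : Prop := ∀ A : ℕ, As A → ∃ c : ℚ, ∀ m : ℕ, Nat.Coprime A m →
  (K0 m → 72 * ((∑ u ∈ un m, chM m u * OM A u m : ℤ) : ℚ) = c * (cc m : ℚ) ^ 2) ∧
  (Kn m → 4 * ((∑ u ∈ un m, chM m u * OM A u m : ℤ) : ℚ) = c * (cn m : ℚ) ^ 2)

/-- the weight for the lattice ramified at `3` -/
def w3 (n : ℕ) (v : V3) : ℤ := if (7 : ℤ) ∣ 3 * v 1 + v 2 then (if 7 ∣ n then -7 else -3) else 1

/-- the weighted signed pair sum of the lattice ramified at `3` -/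
def P3 (A n : ℕ) : ℤ := ∑ v ∈ N877.P21.vec n, ∑ w ∈ N877.P21.vec n,
  w3 n v * w3 n w * sgnE 1 A n ((n + N877.P21.ip v w) / 2)

/-- the unweighted signed pair sum of the lattice ramified at `3` -/
def X3 (A n : ℕ) : ℤ := ∑ v ∈ N877.P21.vec n, ∑ w ∈ N877.P21.vec n,
  sgnE 1 A n ((n + N877.P21.ip v w) / 2)

/-- BIL for the lattice ramified at `3`, `A` in `As` -/
def S_BILS : Prop := ∀ A m : ℕ, As A → K0 m → Nat.Coprime A m →
  576 * ∑ T ∈ (range (A * m)).filter (fun T => 3 ∣ T ∧ 7 ∣ A * m - T), sgnE 1 A (A * m) T *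
    (if 2 ∣ A * m then N877.P21.loc7E (A * m) (2 * T - (A * m : ℕ)) (4 * (A * m - T) * T)
      else N877.P21.loc7 (A * m) (4 * (A * m - T) * T)) = 3 * X3 A (A * m) + P3 A (A * m)

/-- C2 and C2D for the lattice ramified at `3`, `A` in `As` -/
def S_C2S : Prop := ∀ A m : ℕ, As A → K0 m → Nat.Coprime A m → ∀ T : ℕ, 0 < T → T < A * m →
  3 ∣ T → 7 ∣ A * m - T → WM A m (A * m - T) T = WM m A (A * m - T) T ∧
  WM A m (A * m - T) T = - (sgnE 1 A (A * m) T *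
    (if 2 ∣ A * m then N877.P21.loc7E (A * m) (2 * T - (A * m : ℕ)) (4 * (A * m - T) * T)
      else N877.P21.loc7 (A * m) (4 * (A * m - T) * T)))

/-- KAP for `As` (from C1I, C2N, C2S, BILN, BILS, XN, KAPs; `l` prime: `X3 = 0` comes from RQ) -/
def S_KAs : Prop := ∀ A : ℕ, As A → ∃ c : ℚ,
  (∀ l : ℕ, Nat.Prime l → Cls0 l → ¬ l ∣ A → (P3 A (A * l) : ℚ) = c * (cc l : ℚ) ^ 2) ∧
  ∀ m : ℕ, Nat.Coprime A m → Kn m → (N7 A (A * m) : ℚ) = c * (cn m : ℚ) ^ 2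

def S_ORTN : Prop := ∀ n : ℕ, Kn n → ∃ x c : ℕ → ℤ,
  (∀ A ∈ pd n, P7 A n = x A ^ 2 ∧ N7 A n = c A ^ 2) ∧
  (2 : ℤ) ^ (n.primeFactors.card + 2) ∣ (vec7 n).card + ∑ A ∈ pd n, (x A + c A)

def S_VANN : Prop := ∀ n : ℕ, Kn n → ∀ A ∈ pd n, (¬ Ai A → P7 A n = 0) ∧
  (A ≠ 1 → ¬ As A → N7 A n = 0)

end

end Pool.Agent.N877.P21G
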