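import Mathlib
import Pool.Agent.N877.P21G.Defs2

/-!
# Project P21G, third part: interface of the parity inductions

* `S_VANN'`: vanishing for `Kn`, with the condition on `n / A` (replaces `S_VANN`);
* `S_KAJ`: the constant of `A` in `As` in terms of the crossing number of the project RQ (replaces
  `S_KAs`, so `S_BILS` is not needed);
* `S_JY`: divisibility of the crossing number (part of the parity statement of the project RQ).
-/

set_option autoImplicit false

namespace Pool.Agent.N877.P21G

open Finset
open Pool.Agent.N969.RQ (J o3)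

noncomputable section

/-- vanishing for `Kn` -/
def S_VANN' : Prop := ∀ n : ℕ, Kn n → ∀ A ∈ pd n, (¬ (Ai A ∧ K0 (n / A)) → P7 A n = 0) ∧
  (A ≠ 1 → ¬ (As A ∧ Kn (n / A)) → N7 A n = 0)

/-- the constant of `A` in `As` -/
def S_KAJ : Prop := ∀ A m : ℕ, As A → Kn m → Nat.Coprime A m →
  N7 A (A * m) = 16 * J 21 o3 A 1 1 3 ^ 2 * cn m ^ 2

/-- the crossing number is divisible by `2 ^ (ω - 1)` -/
def S_JY : Prop := ∀ A : ℕ, As A → ∃ y : ℤ, 2 * J 21 o3 A 1 1 3 = 2 ^ A.primeFactors.card * y

end

end Pool.Agent.N877.P21G
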