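import Mathlib
import Pool.Agent.N877.P21G.Defs2

/-!
# Project P21G: S_KAI, S_KA0, S_KAs from the crossing numbers, the divisor sums, the pair sums and the
comparison of the symbols
-/

set_option autoImplicit false

namespace Pool.Agent.N877.P21G

open Finset
open Pool.Agent.N969.P15 (Ev un)
open Pool.Agent.N969.P17G (sgnE chP chM)
open Pool.Agent.N969.RQ (Fd vec7)
open Pool.Agent.N877.P21 (cc Cls0)

/-! ### the divisor sums vanish outside the support -/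

section wd

variable {f g : ℕ → Prop} [DecidablePred f] [DecidablePred g]

lemma Wd_zero (A m S : ℕ) : Wd f g A m S 0 = 0 := by
  unfold Wd
  refine Finset.sum_eq_zero fun a _ => ?_
  rw [Nat.divisors_zero, Finset.filter_empty, Finset.sum_empty]

lemma Wd_left {A m S T k : ℕ} (hf : ∀ a, f a → k ∣ a) (h : ¬ k ∣ S) : Wd f g A m S T = 0 := by
  unfold Wd
  refine Finset.sum_eq_zero fun a ha => ?_
  rw [Finset.mem_filter] at ha
  exact absurd ((hf a ha.2).trans (Nat.dvd_of_mem_divisors ha.1)) h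

lemma Wd_right {A m S T k : ℕ} (hg : ∀ a, g a → k ∣ a) (h : ¬ k ∣ T) : Wd f g A m S T = 0 := by
  unfold Wd
  refine Finset.sum_eq_zero fun a _ => Finset.sum_eq_zero fun a' ha => ?_
  rw [Finset.mem_filter] at ha
  exact absurd ((hg a' ha.2).trans (Nat.dvd_of_mem_divisors ha.1)) h

end wd

lemma WB_zero (A m S : ℕ) : WB A m S 0 = 0 := Wd_zero _ _ _
lemma WC_zero (A m S : ℕ) : WC A m S 0 = 0 := Wd_zero _ _ _

lemma sum_WM (A m N : ℕ) : ∑ T ∈ range N, WM A m (N - T) T =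
    ∑ T ∈ ((range N).filter (fun T => 3 ∣ T ∧ 7 ∣ N - T)).filter (0 < ·), WM A m (N - T) T := by
  symm
  refine Finset.sum_subset (fun T hT => (Finset.mem_filter.1 (Finset.mem_filter.1 hT).1).1) ?_
  intro T hT h
  by_cases h3 : 3 ∣ T
  · by_cases h7 : 7 ∣ N - T
    · rcases Nat.eq_zero_or_pos T with rfl | h0
      · exact Wd_zero _ _ _
      · exact absurd (Finset.mem_filter.2 ⟨Finset.mem_filter.2 ⟨hT, h3, h7⟩, h0⟩) h
    · exact Wd_left (fun a ha => ha) h7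
  · exact Wd_right (fun a ha => ha) h3

lemma filt_pos {N k : ℕ} (hN : ¬ k ∣ N) (p : ℕ → Prop) [DecidablePred p] :
    ((range N).filter (fun T => p T ∧ k ∣ N - T)).filter (0 < ·) =
      (range N).filter (fun T => p T ∧ k ∣ N - T) := by
  refine Finset.filter_true_of_mem fun T hT => ?_
  rw [Finset.mem_filter] at hT
  rcases Nat.eq_zero_or_pos T with rfl | h0
  · exact absurd (by simpa using hT.2.2) hN
  · exact h0

lemma Ai_gt {A : ℕ} (h : Ai A) : 1 < A := h.1.1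
lemma A0_gt {A : ℕ} (h : A0 A) : 1 < A := h.1.1

lemma Fn_K0 {m : ℕ} (h : K0 m) : Fn m := by
  rcases h with h | h
  · exact Or.inl ⟨h.1, h.2.1⟩
  · exact Or.inr h.1
lemma Fn_K3 {m : ℕ} (h : K3 m) : Fn m := by
  rcases h with h | h
  · exact Or.inl ⟨h.1, h.2.1⟩
  · exact Or.inr h.1
lemma Fn_K7 {m : ℕ} (h : K7 m) : Fn m := by
  rcases h with h | h
  · exact Or.inl ⟨h.1, h.2.1⟩
  · exact Or.inr h.1
lemma Fn_K21 {m : ℕ} (h : K21 m) : Fn m := by
  rcases h with h | h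
  · exact Or.inl ⟨h.1, h.2.1⟩
  · exact Or.inr h.1

lemma Fn.pos {m : ℕ} (h : Fn m) : 0 < m := by
  rcases h with h | ⟨k, rfl, h, -⟩
  · exact Nat.pos_of_ne_zero h.1.ne_zero
  · have := h.ne_zero
    omega

lemma dvd3_K3 {m : ℕ} (h : K3 m) : 3 ∣ m := by
  rcases h with h | h
  · exact h.2.2.2
  · exact h.2.2
lemma dvd3_K21 {m : ℕ} (h : K21 m) : 3 ∣ m := by
  rcases h with h | h
  · exact h.2.2.2
  · exact h.2.2

lemma K0_3 {m : ℕ} (h : K0 m) : m % 3 = 1 := by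
  rcases h with h | h
  · exact h.2.2.1
  · exact h.2.1

lemma K0_7 {m : ℕ} (h : K0 m) : ¬ 7 ∣ m := by
  have : N877.P21.Sp7 m := by
    rcases h with h | h
    · exact h.2.2.2
    · exact h.2.2
  unfold N877.P21.Sp7 at this
  omega

lemma jac7 {A : ℕ} {e : ℤ} (he : e ≠ 0) (h : jacobiSym A 7 = e) : ¬ 7 ∣ A := by
  intro hd
  have : jacobiSym A 7 = 0 := by
    rw [jacobiSym.eq_zero_iff]
    refine ⟨by norm_num, ?_⟩
    rw [Int.gcd_natCast_natCast]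
    intro h1
    have := Nat.dvd_gcd hd (dvd_refl 7)
    rw [h1] at this
    omega
  rw [this] at h
  exact he h.symm

lemma Ai_7 {A : ℕ} (h : Ai A) : ¬ 7 ∣ A := jac7 (by norm_num) h.2.2
lemma A0_7 {A : ℕ} (h : A0 A) : ¬ 7 ∣ A := jac7 (by norm_num) h.2.2
lemma As_7 {A : ℕ} (h : As A) : ¬ 7 ∣ A := jac7 (by norm_num) h.2.2

lemma Kn_7 {m : ℕ} (h : Kn m) : ¬ 7 ∣ m := by
  have := h.2.2
  unfold I7 at this
  omega

lemma n7_mul {A m : ℕ} (h : ¬ 7 ∣ A) (h' : ¬ 7 ∣ m) : ¬ 7 ∣ A * m := by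
  rw [Nat.Prime.dvd_mul (by norm_num)]
  tauto

lemma n3_mul {A m : ℕ} (h : ¬ 3 ∣ A) (h' : ¬ 3 ∣ m) : ¬ 3 ∣ A * m := by
  rw [Nat.Prime.dvd_mul (by norm_num)]
  tauto

lemma cop21 {n : ℕ} (h3 : ¬ 3 ∣ n) (h7 : ¬ 7 ∣ n) : Nat.Coprime n 21 := by
  have e : (21 : ℕ) = 3 * 7 := by norm_num
  rw [e]
  refine Nat.Coprime.mul_right ?_ ?_
  · exact ((Nat.Prime.coprime_iff_not_dvd (by norm_num)).2 h3).symm
  · exact ((Nat.Prime.coprime_iff_not_dvd (by norm_num)).2 h7).symm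

/-! ### the three classes of pairs with the symbol of `A` -/

/-- `Ai × K0` -/
theorem pairI (C1 : S_C1I) (C2 : S_C2I) (B : S_BILI) {A m : ℕ} (hA : Ai A) (hm : K0 m)
    (hc : Nat.Coprime A m) :
    16 * ∑ u ∈ un m, chM m u * OM A u m = P7 A (A * m) := by
  have h3 : ¬ 3 ∣ A * m := n3_mul (by have := hA.2.1; omega) (by have := K0_3 hm; omega)
  have h7 : ¬ 7 ∣ A * m := n7_mul (Ai_7 hA) (K0_7 hm)
  rw [C1 A m (Ai_gt hA) hA.1 (Fn_K0 hm) hc (cop21 h3 h7), ← B A m ⟨hA, hm, hc⟩, sum_WM,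
    filt_pos h7]
  rw [← mul_assoc]
  have e : (16 : ℤ) * 2 = 32 := by norm_num
  rw [e]
  congr 1
  refine Finset.sum_congr rfl fun T hT => ?_
  rw [Finset.mem_filter, Finset.mem_range] at hT
  obtain ⟨h1, h2, h4⟩ := hT
  have h0 : 0 < T := by
    rcases Nat.eq_zero_or_pos T with rfl | h0
    · exact absurd (by simpa using h4) h7
    · exact h0
  have e' : (4 * (A * m - T) * T) = 4 * (A * m - T) * T := rfl
  exact C2 A m ⟨hA, hm, hc⟩ T h0 h1 h2 h4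

lemma sum_ite7 (N : ℕ) (F : ℕ → ℤ) (X : ℕ → ℤ) (hX : X 0 = 0)
    (h : ∀ T : ℕ, 0 < T → T < N → X T = if 7 ∣ T ∧ ¬ 3 ∣ T then - F T else 0) :
    ∑ T ∈ range N, X T = - ∑ T ∈ (range N).filter (fun T => 7 ∣ T ∧ ¬ 3 ∣ T), F T := by
  rw [← Finset.sum_neg_distrib, Finset.sum_filter]
  refine Finset.sum_congr rfl fun T hT => ?_
  rw [Finset.mem_range] at hT
  rcases Nat.eq_zero_or_pos T with rfl | h0
  · rw [hX, if_neg]
    rintro ⟨-, h3⟩
    exact h3 (dvd_zero 3)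
  · exact h T h0 hT

/-- `Ai × K3` -/
theorem pair3 (C1 : S_C1B) (C2 : S_C23) (B : S_BIL3) {A m : ℕ} (hA : Ai A) (hm : K3 m)
    (hc : Nat.Coprime A m) :
    16 * ∑ u ∈ un m, chM m u * OB A u m = P7 A (A * m) := by
  have h := B A m ⟨Or.inl ⟨hA, hm⟩, hc⟩
  have h2 : ∑ T ∈ range (A * m), WB A m (A * m - T) T =
      - ∑ T ∈ (range (A * m)).filter (fun T => 7 ∣ T ∧ ¬ 3 ∣ T), (sgnE 1 A (A * m) T *
        L7 (A * m) (2 * T - (A * m : ℕ)) (4 * (A * m - T) * T)) :=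
    sum_ite7 (A * m) (fun T => sgnE 1 A (A * m) T *
      L7 (A * m) (2 * T - (A * m : ℕ)) (4 * (A * m - T) * T)) (fun T => WB A m (A * m - T) T)
      (by simp only [WB_zero]) (C2 A m hA hm hc)
  rw [C1 A m hA (Fn_K3 hm) (dvd3_K3 hm) hc]
  linear_combination 32 * h2 - h

/-- `Ai × K21` -/
theorem pair21 (C1 : S_C1B) (C2 : S_C221) (B : S_BIL21) {A m : ℕ} (hA : Ai A) (hm : K21 m)
    (hc : Nat.Coprime A m) :
    8 * ∑ u ∈ un m, chM m u * OB A u m = P7 A (A * m) := by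
  have h := B A m ⟨Or.inl ⟨hA, hm⟩, hc⟩
  have h2 : ∑ T ∈ range (A * m), 2 * WB A m (A * m - T) T =
      - ∑ T ∈ (range (A * m)).filter (fun T => 7 ∣ T ∧ ¬ 3 ∣ T), (sgnE 1 A (A * m) T *
        L7r (A * m) (2 * T - (A * m : ℕ)) (4 * (A * m - T) * T)) :=
    sum_ite7 (A * m) (fun T => sgnE 1 A (A * m) T *
      L7r (A * m) (2 * T - (A * m : ℕ)) (4 * (A * m - T) * T)) (fun T => 2 * WB A m (A * m - T) T)
      (by simp only [WB_zero, mul_zero]) (C2 A m hA hm hc)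
  rw [← Finset.mul_sum] at h2
  rw [C1 A m hA (Fn_K21 hm) (dvd3_K21 hm) hc]
  linear_combination 8 * h2 - h

theorem t_KAI (C1I : S_C1I) (C1B : S_C1B) (C2I : S_C2I) (C23 : S_C23) (C221 : S_C221)
    (BI : S_BILI) (B3 : S_BIL3) (B21 : S_BIL21) (K : S_KAPi) : S_KAI := by
  intro A hA
  obtain ⟨c, hc⟩ := K A hA
  refine ⟨2 / 9 * c, fun m hm => ?_⟩
  obtain ⟨h0, h3, h21⟩ := hc m hm
  refine ⟨fun hk => ?_, fun hk => ?_, fun hk => ?_⟩
  · have h1 := h0 hk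
    rw [← pairI C1I C2I BI hA hk hm]
    push_cast at h1 ⊢
    linear_combination (2 / 9 : ℚ) * h1
  · have h1 := h3 hk
    rw [← pair3 C1B C23 B3 hA hk hm]
    push_cast at h1 ⊢
    linear_combination (8 / 9 : ℚ) * h1
  · have h1 := h21 hk
    rw [← pair21 C1B C221 B21 hA hk hm]
    push_cast at h1 ⊢
    linear_combination (2 / 9 : ℚ) * h1

/-! ### the pairs with the symbol of `-m` -/

/-- `A0 × K0` -/
theorem pairD3 (C1 : S_D13) (C2 : S_C2D3) (B : S_BIL3) {A m : ℕ} (hA : A0 A) (hm : K0 m)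
    (hc : Nat.Coprime A m) :
    16 * ∑ u ∈ un A, chP A u * EB m u A = P7 A (A * m) := by
  have h := B A m ⟨Or.inr ⟨hA, hm⟩, hc⟩
  have h2 : ∑ T ∈ range (A * m), WB m A (A * m - T) T =
      - ∑ T ∈ (range (A * m)).filter (fun T => 7 ∣ T ∧ ¬ 3 ∣ T), (sgnE 1 A (A * m) T *
        L7 (A * m) (2 * T - (A * m : ℕ)) (4 * (A * m - T) * T)) :=
    sum_ite7 (A * m) (fun T => sgnE 1 A (A * m) T *
      L7 (A * m) (2 * T - (A * m : ℕ)) (4 * (A * m - T) * T)) (fun T => WB m A (A * m - T) T)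
      (by simp only [WB_zero]) (C2 A m hA hm hc)
  rw [C1 A m hA hm hc]
  linear_combination 32 * h2 - h

/-- `A0 × K7` -/
theorem pairD21 (C1 : S_D121) (C2 : S_C2D21) (B : S_BIL21) {A m : ℕ} (hA : A0 A) (hm : K7 m)
    (hc : Nat.Coprime A m) :
    16 * ∑ u ∈ un A, chP A u * EB m u A = P7 A (A * m) := by
  have h := B A m ⟨Or.inr ⟨hA, hm⟩, hc⟩
  have h2 : ∑ T ∈ range (A * m), 2 * WC m A (A * m - T) T =
      - ∑ T ∈ (range (A * m)).filter (fun T => 7 ∣ T ∧ ¬ 3 ∣ T), (sgnE 1 A (A * m) T *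
        L7r (A * m) (2 * T - (A * m : ℕ)) (4 * (A * m - T) * T)) :=
    sum_ite7 (A * m) (fun T => sgnE 1 A (A * m) T *
      L7r (A * m) (2 * T - (A * m : ℕ)) (4 * (A * m - T) * T)) (fun T => 2 * WC m A (A * m - T) T)
      (by simp only [WC_zero, mul_zero]) (C2 A m hA hm hc)
  rw [← Finset.mul_sum] at h2
  rw [C1 A m (Or.inr hA) hm hc]
  linear_combination 8 * h2 - h

/-- the constant for `A` in `A0` is `-4 σ / 9` -/
theorem t_KA0' (D13 : S_D13) (D121 : S_D121) (C2D3 : S_C2D3) (C2D21 : S_C2D21) (B3 : S_BIL3)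
    (B21 : S_BIL21) (DE0 : S_DE0) (DE7 : S_DE7) {A : ℕ} (hA : A0 A) {σ : ℝ} (hσ : CMPE A σ)
    {m : ℕ} (hc : Nat.Coprime A m) :
    (K0 m → (P7 A (A * m) : ℝ) = -(4 / 9) * σ * (cc m : ℝ) ^ 2) ∧
    (K7 m → 4 * (P7 A (A * m) : ℝ) = -(4 / 9) * σ * (cc m : ℝ) ^ 2) := by
  obtain ⟨-, h0, h7⟩ := hσ m hc
  refine ⟨fun hk => ?_, fun hk => ?_⟩
  · have h1 := h0 hA hk
    have h2 : (72 : ℝ) * ((EM m 1 2 - EM m 0 1 : ℤ) : ℝ) = (cc m : ℝ) ^ 2 := by
      exact_mod_cast DE0 m hk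
    rw [← pairD3 D13 C2D3 B3 hA hk hc, ← h2]
    push_cast at h1 ⊢
    linear_combination (16 : ℝ) * h1
  · have h1 := h7 hA hk
    have h2 : (144 : ℝ) * ((EB m 1 2 - EB m 0 1 : ℤ) : ℝ) = - (cc m : ℝ) ^ 2 := by
      exact_mod_cast DE7 m hk
    rw [← pairD21 D121 C2D21 B21 hA hk hc]
    have h3 : (cc m : ℝ) ^ 2 = -((144 : ℝ) * ((EB m 1 2 - EB m 0 1 : ℤ) : ℝ)) := by
      rw [h2]
      ring
    rw [h3]
    push_cast at h1 ⊢
    linear_combination (64 : ℝ) * h1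

theorem t_KA0 (D13 : S_D13) (D121 : S_D121) (C2D3 : S_C2D3) (C2D21 : S_C2D21) (B3 : S_BIL3)
    (B21 : S_BIL21) (DE0 : S_DE0) (DE7 : S_DE7) (K : ∀ A, A0 A → ∃ σ : ℝ, CMPE A σ) : S_KA0 := by
  intro A hA
  obtain ⟨σ, hσ⟩ := K A hA
  have key := fun m (hc : Nat.Coprime A m) => t_KA0' D13 D121 C2D3 C2D21 B3 B21 DE0 DE7 hA hσ hc
  by_cases hex : ∃ c : ℚ, (c : ℝ) = -(4 / 9) * σ
  · obtain ⟨c, h⟩ := hex
    refine ⟨c, fun m hm => ⟨fun hk => ?_, fun hk => ?_⟩⟩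
    · have := (key m hm).1 hk
      rw [← h] at this
      exact_mod_cast this
    · have := (key m hm).2 hk
      rw [← h] at this
      exact_mod_cast this
  · -- all the `cc` vanish
    have hz : ∀ m : ℕ, Nat.Coprime A m → ∀ p : ℚ, (p : ℝ) = -(4 / 9) * σ * (cc m : ℝ) ^ 2 →
        (cc m : ℚ) = 0 := by
      intro m hm p hp
      by_contra h0
      refine hex ⟨p / (cc m : ℚ) ^ 2, ?_⟩
      have h1 : (cc m : ℝ) ≠ 0 := by exact_mod_cast h0
      push_cast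
      rw [div_eq_iff (pow_ne_zero 2 h1)]
      exact hp
    refine ⟨0, fun m hm => ⟨fun hk => ?_, fun hk => ?_⟩⟩
    · have h1 := (key m hm).1 hk
      have h2 := hz m hm (P7 A (A * m) : ℚ) (by push_cast; exact h1)
      have h3 : (cc m : ℝ) = 0 := by exact_mod_cast h2
      rw [h3] at h1
      have h4 : (P7 A (A * m) : ℝ) = 0 := by rw [h1]; ring
      have h5 : (P7 A (A * m) : ℚ) = 0 := by exact_mod_cast h4
      rw [h5]
      ring
    · have h1 := (key m hm).2 hk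
      have h2 := hz m hm (4 * P7 A (A * m) : ℚ) (by push_cast; exact h1)
      have h3 : (cc m : ℝ) = 0 := by exact_mod_cast h2
      rw [h3] at h1
      have h4 : 4 * (P7 A (A * m) : ℝ) = 0 := by rw [h1]; ring
      have h5 : 4 * (P7 A (A * m) : ℚ) = 0 := by exact_mod_cast h4
      rw [h5]
      ring

/-! ### the class `As` -/

/-- `As × Kn` -/
theorem pairN (C1 : S_C1I) (C2 : S_C2N) (B : S_BILN) (X : S_XN) {A m : ℕ} (hA : As A) (hm : Kn m)
    (hc : Nat.Coprime A m) :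
    16 * ∑ u ∈ un m, chM m u * OM A u m = - N7 A (A * m) := by
  have h3 : ¬ 3 ∣ A * m := n3_mul (by have := hA.2.1; omega) (by have := hm.2.1; omega)
  have h7 : ¬ 7 ∣ A * m := n7_mul (As_7 hA) (Kn_7 hm)
  have hP : PrN A m := ⟨Or.inr hA, hm, hc⟩
  have hB := B A m hP
  rw [X A m hA hm hc] at hB
  rw [C1 A m hA.1.1 hA.1 hm.1 hc (cop21 h3 h7), sum_WM, filt_pos h7]
  have e : ∑ T ∈ (range (A * m)).filter (fun T => 3 ∣ T ∧ 7 ∣ A * m - T), WM A m (A * m - T) T =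
      ∑ T ∈ (range (A * m)).filter (fun T => 3 ∣ T ∧ 7 ∣ A * m - T), sgnE 1 A (A * m) T *
        L37 (A * m) (2 * T - (A * m : ℕ)) (4 * (A * m - T) * T) := by
    refine Finset.sum_congr rfl fun T hT => ?_
    rw [Finset.mem_filter, Finset.mem_range] at hT
    obtain ⟨h1, h2, h4⟩ := hT
    have h0 : 0 < T := by
      rcases Nat.eq_zero_or_pos T with rfl | h0
      · exact absurd (by simpa using h4) h7
      · exact h0
    exact C2 A m hP T h0 h1 h2 h4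
  rw [e]
  linear_combination hB

/-- `As × K0` -/
theorem pairS (C1 : S_C1I) (C2 : S_C2S) (B : S_BILS) {A m : ℕ} (hA : As A) (hm : K0 m)
    (hc : Nat.Coprime A m) :
    288 * ∑ u ∈ un m, chM m u * OM A u m = - (3 * X3 A (A * m) + P3 A (A * m)) := by
  have h3 : ¬ 3 ∣ A * m := n3_mul (by have := hA.2.1; omega) (by have := K0_3 hm; omega)
  have h7 : ¬ 7 ∣ A * m := n7_mul (As_7 hA) (K0_7 hm)
  rw [C1 A m hA.1.1 hA.1 (Fn_K0 hm) hc (cop21 h3 h7), ← B A m hA hm hc, sum_WM, filt_pos h7]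
  have e : ∑ T ∈ (range (A * m)).filter (fun T => 3 ∣ T ∧ 7 ∣ A * m - T), WM A m (A * m - T) T =
      - ∑ T ∈ (range (A * m)).filter (fun T => 3 ∣ T ∧ 7 ∣ A * m - T), sgnE 1 A (A * m) T *
    (if 2 ∣ A * m then N877.P21.loc7E (A * m) (2 * T - (A * m : ℕ)) (4 * (A * m - T) * T)
      else N877.P21.loc7 (A * m) (4 * (A * m - T) * T)) := by
    rw [← Finset.sum_neg_distrib]
    refine Finset.sum_congr rfl fun T hT => ?_
    rw [Finset.mem_filter, Finset.mem_range] at hT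
    obtain ⟨h1, h2, h4⟩ := hT
    have h0 : 0 < T := by
      rcases Nat.eq_zero_or_pos T with rfl | h0
      · exact absurd (by simpa using h4) h7
      · exact h0
    exact (C2 A m hA hm hc T h0 h1 h2 h4).2
  rw [e]
  ring

/-- KAP for `As`; `X3 = 0` for prime `m` is proved in the project RQ -/
theorem t_KAs (C1 : S_C1I) (C2N : S_C2N) (C2S : S_C2S) (BN : S_BILN) (BS : S_BILS) (X : S_XN)
    (K : S_KAPs) (X0 : ∀ A l : ℕ, As A → Nat.Prime l → Cls0 l → ¬ l ∣ A → X3 A (A * l) = 0) :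
    S_KAs := by
  intro A hA
  obtain ⟨c, hc⟩ := K A hA
  refine ⟨-4 * c, fun l hl h0 hd => ?_, fun m hm hk => ?_⟩
  · have hco : Nat.Coprime A l := ((Nat.Prime.coprime_iff_not_dvd hl).2 hd).symm
    have h1 := (hc l hco).1 (Or.inl h0)
    have h2 := pairS C1 C2S BS hA (Or.inl h0) hco
    rw [X0 A l hA hl h0 hd] at h2
    have h3 := congrArg (Int.cast (R := ℚ)) h2
    push_cast at h1 h3 ⊢
    linear_combination (-4 : ℚ) * h1 + h3
  · have h1 := (hc m hm).2 hk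
    have h2 := pairN C1 C2N BN X hA hk hm
    have h3 := congrArg (Int.cast (R := ℚ)) h2
    push_cast at h1 h3 ⊢
    linear_combination (-4 : ℚ) * h1 + h3

end Pool.Agent.N877.P21G
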