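import Pool.Agent.N877.P21G.Lv
import Pool.Agent.N970.P21G.Ort
import Pool.Agent.N871.P21G.Van2

/-!
# Project P21G: all leaves
-/

set_option autoImplicit false

namespace Pool.Agent.N877.P21G

/-- **all leaves** -/
theorem lvs : Lvs := lvs_of Pool.Agent.N970.P21G.t_ORT3 Pool.Agent.N970.P21G.t_ORT21
  Pool.Agent.N970.P21G.t_ORTN Pool.Agent.N871.P21G.t_VAN3 Pool.Agent.N871.P21G.t_VAN21
  Pool.Agent.N871.P21G.t_VANN'

end Pool.Agent.N877.P21G
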