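import Pool.Agent.N877.P21G.Par

/-!
# Project P21G: uniqueness of the solution of the two systems of relations
-/

set_option autoImplicit false

namespace Pool.Agent.N877.P21G

open Finset
open Pool.Agent.N969.P15 (Ev un Qc Qe)
open Pool.Agent.N969.RQ (Fd vec7 ud)

open Classical in
lemma uniq_step {S : Finset ℕ} {D : ℕ} (hD : D ∈ S) {f g : ℕ → Prop}
    (h : ∀ A ∈ S.erase D, f A ↔ g A) (ho : Odd (S.filter f).card ↔ Odd (S.filter g).card) :
    f D ↔ g D := by
  have key : ∀ f : ℕ → Prop, (S.filter f).card =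
      ((S.erase D).filter f).card + if f D then 1 else 0 := by
    intro f
    conv_lhs => rw [← Finset.insert_erase hD]
    rw [Finset.filter_insert]
    split_ifs with h1
    · rw [Finset.card_insert_of_notMem fun h2 => (Finset.notMem_erase D S)
        (Finset.mem_filter.1 h2).1]
    · rw [add_zero]
  have e : ((S.erase D).filter f) = ((S.erase D).filter g) := Finset.filter_congr h
  rw [key f, key g, e] at ho
  by_cases h1 : f D <;> by_cases h2 : g D
  · tauto
  · exfalso
    rw [if_pos h1, if_neg h2, add_zero, Nat.odd_add_one] at ho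
    tauto
  · exfalso
    rw [if_neg h1, if_pos h2, add_zero, Nat.odd_add_one] at ho
    tauto
  · tauto

lemma qc_p {p : ℕ} (hp : p.Prime) : Qc p := Pool.Agent.N218.RQ.qc_prime hp

lemma QQ_p {p : ℕ} (hp : p.Prime) (h : p % 4 = 3) : QQ p := (qq_odd h).2 (qc_p hp)

open Classical in
/-- two solutions of the relations for `n = 3 D` (`D` in `Ai`) and `n = 7 D` (`D` in `A0`) agree -/
theorem uniq {e e' : ℕ → Prop}
    (h3 : ∀ D, Ai D →
      (Odd ((pd (D * 3)).filter fun A => Pr3 A (D * 3 / A) ∧ e A ∧ QQ (D * 3 / A)).card ↔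
       Odd ((pd (D * 3)).filter fun A => Pr3 A (D * 3 / A) ∧ e' A ∧ QQ (D * 3 / A)).card))
    (h21 : ∀ D, A0 D →
      (Odd ((pd (D * 7)).filter fun A => Pr21 A (D * 7 / A) ∧ e A ∧ QQ (D * 7 / A)).card ↔
       Odd ((pd (D * 7)).filter fun A => Pr21 A (D * 7 / A) ∧ e' A ∧ QQ (D * 7 / A)).card)) :
    ∀ k A : ℕ, (Ai A ∨ A0 A) → mu A ≤ k → (e A ↔ e' A) := by
  intro k
  induction k using Nat.strong_induction_on with
  | _ k ih =>
  intro D hD hk
  have ih' : ∀ A, (Ai A ∨ A0 A) → mu A < mu D → (e A ↔ e' A) := fun A hA h =>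
    ih (mu A) (lt_of_lt_of_le h hk) A hA le_rfl
  rcases hD with hD | hD
  · have hD3 := Ai_3 hD
    have hcop : Nat.Coprime D 3 := ((Nat.Prime.coprime_iff_not_dvd Nat.prime_three).2 hD3).symm
    have ho := h3 D hD
    have hnD : D * 3 / D = 3 := Nat.mul_div_cancel_left 3 (by have := hD.1.1; omega)
    have hDm : D ∈ pd (D * 3) := by
      unfold pd ud
      rw [mem_filter, mem_filter, Nat.mem_divisors]
      exact ⟨⟨⟨⟨3, rfl⟩, by have := hD.1.1; omega⟩, by rw [hnD]; exact hcop⟩,
        Or.inr hD.1, Ai_7 hD⟩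
    have hK : K3 3 := Or.inl ⟨Nat.prime_three.squarefree, by norm_num, by
      unfold N877.P21.Sp7
      norm_num, dvd_rfl⟩
    have hs := uniq_step hDm (f := fun A => Pr3 A (D * 3 / A) ∧ e A ∧ QQ (D * 3 / A))
      (g := fun A => Pr3 A (D * 3 / A) ∧ e' A ∧ QQ (D * 3 / A)) ?_ (by convert ho)
    · have hP : Pr3 D (D * 3 / D) := by
        rw [hnD]
        exact ⟨Or.inl ⟨hD, hK⟩, hcop⟩
      have hQ : QQ (D * 3 / D) := by
        rw [hnD]
        exact QQ_p Nat.prime_three (by norm_num)
      constructor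
      · exact fun h => (hs.1 ⟨hP, h, hQ⟩).2.1
      · exact fun h => (hs.2 ⟨hP, h, hQ⟩).2.1
    · intro A hA
      refine and_congr_right fun hP => and_congr_left fun _ => ?_
      rw [mem_erase] at hA
      obtain ⟨hAn, hAc, hA1, hA7⟩ := pd_mem hA.2
      have e1 : A * (D * 3 / A) = D * 3 := Nat.mul_div_cancel' hAn
      refine ih' A (by
        rcases hP.1 with h | h
        · exact Or.inl h.1
        · exact Or.inr h.1) ?_
      unfold mu
      rw [if_neg hD3]
      rcases hP.1 with ⟨h1, h2⟩ | ⟨h1, h2⟩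
      · have hA3 := Ai_3 h1
        have hAD : A ∣ D := by
          have hc : Nat.Coprime A 3 :=
            ((Nat.Prime.coprime_iff_not_dvd Nat.prime_three).2 hA3).symm
          exact hc.dvd_of_dvd_mul_right hAn
        have hco : Nat.Coprime A (D / A) := by
          refine Nat.Coprime.coprime_dvd_right ?_ hAc
          rw [Nat.mul_comm D 3, Nat.mul_div_assoc 3 hAD]
          exact dvd_mul_left _ _
        have := card_lt (by have := hD.1.1; omega) hAD hA.1 hco
        rw [if_neg hA3]
        omega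
      · rw [if_pos h1.2.1]
        have h5 : (D * 3).primeFactors.card = D.primeFactors.card + 1 := by
          rw [card_mul hcop, Nat.Prime.primeFactors Nat.prime_three, Finset.card_singleton]
        have h6 : (D * 3).primeFactors.card =
            A.primeFactors.card + (D * 3 / A).primeFactors.card := by
          conv_lhs => rw [← e1]
          exact card_mul hAc
        have h7 : 0 < (D * 3 / A).primeFactors.card :=
          Finset.card_pos.2 (Nat.nonempty_primeFactors.2 (K0_gt h2))
        omega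
  · have hD7 := A0_7 hD
    have hcop : Nat.Coprime D 7 := ((Nat.Prime.coprime_iff_not_dvd (by norm_num)).2 hD7).symm
    have ho := h21 D hD
    have hnD : D * 7 / D = 7 := Nat.mul_div_cancel_left 7 (by have := hD.1.1; omega)
    have hDm : D ∈ pd (D * 7) := by
      unfold pd ud
      rw [mem_filter, mem_filter, Nat.mem_divisors]
      exact ⟨⟨⟨⟨7, rfl⟩, by have := hD.1.1; omega⟩, by rw [hnD]; exact hcop⟩,
        Or.inr hD.1, hD7⟩
    have h7p : Nat.Prime 7 := by norm_num
    have hK : K7 7 := Or.inl ⟨h7p.prime.squarefree, by norm_num, dvd_rfl, by norm_num⟩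
    have hs := uniq_step hDm (f := fun A => Pr21 A (D * 7 / A) ∧ e A ∧ QQ (D * 7 / A))
      (g := fun A => Pr21 A (D * 7 / A) ∧ e' A ∧ QQ (D * 7 / A)) ?_ (by convert ho)
    · have hP : Pr21 D (D * 7 / D) := by
        rw [hnD]
        exact ⟨Or.inr ⟨hD, hK⟩, hcop⟩
      have hQ : QQ (D * 7 / D) := by
        rw [hnD]
        exact QQ_p h7p (by norm_num)
      constructor
      · exact fun h => (hs.1 ⟨hP, h, hQ⟩).2.1
      · exact fun h => (hs.2 ⟨hP, h, hQ⟩).2.1
    · intro A hA
      refine and_congr_right fun hP => and_congr_left fun _ => ?_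
      rw [mem_erase] at hA
      obtain ⟨hAn, hAc, hA1, hA7⟩ := pd_mem hA.2
      have hAD : A ∣ D := by
        have hc : Nat.Coprime A 7 := ((Nat.Prime.coprime_iff_not_dvd h7p).2 hA7).symm
        exact hc.dvd_of_dvd_mul_right hAn
      have hco : Nat.Coprime A (D / A) := by
        refine Nat.Coprime.coprime_dvd_right ?_ hAc
        rw [Nat.mul_comm D 7, Nat.mul_div_assoc 7 hAD]
        exact dvd_mul_left _ _
      have hlt := card_lt (by have := hD.1.1; omega) hAD hA.1 hco
      refine ih' A (by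
        rcases hP.1 with h | h
        · exact Or.inl h.1
        · exact Or.inr h.1) ?_
      unfold mu
      rw [if_pos hD.2.1]
      split_ifs <;> omega

open Classical in
/-- the parity statement with a criterion `cr` which satisfies the relations for `n = 3 D`, `7 D` -/
theorem crit_YA (O3 : S_ORT3) (O21 : S_ORT21) (V3 : S_VAN3) (V21 : S_VAN21) (R : S_R7)
    (Rr : S_R7r) (KI : S_KAI) (K0' : S_KA0) {cr : ℕ → Prop}
    (h3 : ∀ D, Ai D → (QQ (D * 3) ↔
      Odd ((pd (D * 3)).filter fun A => Pr3 A (D * 3 / A) ∧ cr A ∧ QQ (D * 3 / A)).card))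
    (h21 : ∀ D, A0 D → (QQ (D * 7) ↔
      Odd ((pd (D * 7)).filter fun A => Pr21 A (D * 7 / A) ∧ cr A ∧ QQ (D * 7 / A)).card)) :
    ∃ y : ℕ → ℤ, ∀ A, (Ai A ∨ A0 A) → YA A (y A) ∧ (Odd (y A) ↔ cr A) := by
  obtain ⟨y, hY, r3, r21⟩ := t_YA O3 O21 V3 V21 R Rr KI K0'
  refine ⟨y, fun A hA => ⟨hY A hA, ?_⟩⟩
  refine uniq (e := fun A => Odd (y A)) (e' := cr) (fun D hD => ?_) (fun D hD => ?_) (mu A) A hA
    le_rfl
  · rw [← h3 D hD]
    have e : D * 3 = 3 * D := by ring
    have := (r3 (D * 3) (by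
      rw [e]
      exact Fn_mul hD.1 Nat.prime_three (by norm_num) (Ai_3 hD)) ⟨D, e⟩ (by
      rw [e]
      exact I7_3 hD.2.2)).symm
    convert this
  · rw [← h21 D hD]
    have e : D * 7 = 7 * D := by ring
    have := (r21 (D * 7) (by
      rw [e]
      exact Fn_mul hD.1 (by norm_num) (by norm_num) (A0_7 hD)) (by
      have : (21 : ℕ) = 7 * 3 := rfl
      rw [e, this]
      exact Nat.mul_dvd_mul_left 7 hD.2.1)).symm
    convert this

end Pool.Agent.N877.P21G
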