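import Pool.Agent.N877.P21G.ParN
import Pool.Agent.N877.P21G.Uniq
import Pool.Agent.N972.GC.Lv21

/-!
# Project P21G: the parity statements with the criteria of helper972
-/

set_option autoImplicit false

namespace Pool.Agent.N877.P21G

open Finset
open Pool.Agent.N969.P15 (Ev un Qc Qe)
open Pool.Agent.N969.RQ (Fd vec7 ud)
open Pool.Agent.N855.RQp (Val sum_val)
open Pool.Agent.N972.GC (CY CM)
open Pool.Agent.N973.P15G (Ng)

lemma QQ_eq : Pool.Agent.N972.GC.QQ = QQ := rfl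

lemma Ng_iff (n : ℕ) : Ng n ↔ Fn n := Iff.rfl

open Classical in
lemma conv3 (n : ℕ) (f : ℕ → Prop) : ((pd n).filter fun A => Pr3 A (n / A) ∧ f A) =
    ((ud n).filter fun A => ((Ai A ∧ K3 (n / A)) ∨ (A0 A ∧ K0 (n / A))) ∧ f A) := by
  ext A
  rw [mem_filter, mem_filter]
  constructor
  · rintro ⟨h1, h2, h3⟩
    unfold pd at h1
    rw [mem_filter] at h1
    exact ⟨h1.1, h2.1, h3⟩
  · rintro ⟨h1, h2, h3⟩
    have h4 : (A = 1 ∨ Fd A) ∧ ¬ 7 ∣ A := by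
      rcases h2 with h | h
      · exact ⟨Or.inr h.1.1, Ai_7 h.1⟩
      · exact ⟨Or.inr h.1.1, A0_7 h.1⟩
    refine ⟨?_, ⟨h2, ?_⟩, h3⟩
    · unfold pd
      rw [mem_filter]
      exact ⟨h1, h4⟩
    · unfold ud at h1
      rw [mem_filter] at h1
      exact h1.2

open Classical in
lemma conv21 (n : ℕ) (f : ℕ → Prop) : ((pd n).filter fun A => Pr21 A (n / A) ∧ f A) =
    ((ud n).filter fun A => ((Ai A ∧ K21 (n / A)) ∨ (A0 A ∧ K7 (n / A))) ∧ f A) := by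
  ext A
  rw [mem_filter, mem_filter]
  constructor
  · rintro ⟨h1, h2, h3⟩
    unfold pd at h1
    rw [mem_filter] at h1
    exact ⟨h1.1, h2.1, h3⟩
  · rintro ⟨h1, h2, h3⟩
    have h4 : (A = 1 ∨ Fd A) ∧ ¬ 7 ∣ A := by
      rcases h2 with h | h
      · exact ⟨Or.inr h.1.1, Ai_7 h.1⟩
      · exact ⟨Or.inr h.1.1, A0_7 h.1⟩
    refine ⟨?_, ⟨h2, ?_⟩, h3⟩
    · unfold pd
      rw [mem_filter]
      exact ⟨h1, h4⟩
    · unfold ud at h1
      rw [mem_filter] at h1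
      exact h1.2

open Classical in
lemma convN (n : ℕ) (e : ℕ → Prop) :
    ((pd n).filter fun A => Ai A ∧ K0 (n / A) ∧ e A ∧ QQ (n / A)) =
    ((ud n).filter fun A => (Ai A ∧ K0 (n / A)) ∧ e A ∧ QQ (n / A)) := by
  ext A
  rw [mem_filter, mem_filter]
  constructor
  · rintro ⟨h1, h2, h3, h4⟩
    unfold pd at h1
    rw [mem_filter] at h1
    exact ⟨h1.1, ⟨h2, h3⟩, h4⟩
  · rintro ⟨h1, ⟨h2, h3⟩, h4⟩
    refine ⟨?_, h2, h3, h4⟩
    unfold pd
    rw [mem_filter]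
    exact ⟨h1, Or.inr h2.1, Ai_7 h2⟩

/-- **The parity statement for `Ai` and `A0`** with the criterion. -/
theorem t_Y (O3 : S_ORT3) (O21 : S_ORT21) (V3 : S_VAN3) (V21 : S_VAN21) (R : S_R7)
    (Rr : S_R7r) (KI : S_KAI) (K0' : S_KA0) :
    ∃ y : ℕ → ℤ, ∀ A, (Ai A ∨ A0 A) → YA A (y A) ∧ (Odd (y A) ↔ CY (-7) A) := by
  classical
  obtain ⟨y, hY, r3, r21⟩ := t_YA O3 O21 V3 V21 R Rr KI K0'
  refine ⟨y, fun A hA => ⟨hY A hA, ?_⟩⟩
  refine Pool.Agent.N972.GC.par21 (y := fun A => Odd (y A)) (fun n h1 h2 h3 => ?_)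
    (fun n h1 h2 => ?_) A hA
  · have h := r3 n h1 h2 h3
    rw [QQ_eq, h]
    refine iff_of_eq (congrArg Odd ((Eq.trans ?_ (congrArg Finset.card
      (conv3 n fun A => Odd (y A) ∧ QQ (n / A)))).trans ?_)) <;> congr!
  · have h := r21 n h1 h2
    rw [QQ_eq, h]
    refine iff_of_eq (congrArg Odd ((Eq.trans ?_ (congrArg Finset.card
      (conv21 n fun A => Odd (y A) ∧ QQ (n / A)))).trans ?_)) <;> congr!

/-- **The parity statement for `Kn`** with the criterion. -/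
theorem t_YN (O : S_ORTN) (V : S_VANN') (R : S_R7) (KJ : S_KAJ) (JY : S_JY) {y : ℕ → ℤ}
    (hY : ∀ A, (Ai A ∨ A0 A) → YA A (y A) ∧ (Odd (y A) ↔ CY (-7) A)) {n : ℕ} (hn : Kn n) :
    Val (n.primeFactors.card + 1) (cn n) (CM (-7) 3 n) := by
  classical
  refine (parN O V R KJ JY (fun A hA => (hY A hA).1) n n le_rfl hn).congr ?_
  rw [Pool.Agent.N972.GC.z21n hn, QQ_eq]
  have e1 : ((pd n).filter fun A => Ai A ∧ K0 (n / A) ∧ Odd (y A) ∧ QQ (n / A)).card =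
      ((ud n).filter fun A => (Ai A ∧ K0 (n / A)) ∧ CY (-7) A ∧ QQ (n / A)).card := by
    rw [← convN n (CY (-7))]
    refine congrArg Finset.card (Finset.filter_congr fun A _ => ?_)
    refine and_congr_right fun hA => ?_
    rw [(hY A (Or.inl hA)).2]
  have e2 : ∀ c : ℕ, (¬ (QQ n ↔ Odd c)) ↔ Odd ((if QQ n then 1 else 0) + c) := by
    intro c
    by_cases h : QQ n
    · rw [if_pos h, add_comm, Nat.odd_add_one]
      tauto
    · rw [if_neg h, zero_add]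
      tauto
  rw [← e2]
  refine not_congr (iff_congr Iff.rfl (iff_of_eq (congrArg Odd ((Eq.trans ?_ e1).trans ?_)))) <;>
    congr!

end Pool.Agent.N877.P21G
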