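import Pool.Agent.N877.P21G.Ka
import Pool.Agent.N877.P21G.Defs3
import Pool.Agent.N218.RQ.Val21
import Pool.Agent.N975.RQ.DuE

/-!
# Project P21G: S_KAJ, the constant of `A` in `As` in terms of the crossing number
-/

set_option autoImplicit false

namespace Pool.Agent.N877.P21G

open Finset
open Pool.Agent.N969.P15 (Ev un psp psp2 c2)
open Pool.Agent.N969.P17G (sgnE chP chM psl psl2)
open Pool.Agent.N969.RQ (Fd vec7 J o3 R21 WD wd sl ld21 S_BILJ21 S_C2D21)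
open Pool.Agent.N877.P21 (cc Cls0)

lemma c2_l {A l : ℕ} (hA : Fd A) (h2 : 2 ∣ A) (hl : l % 4 = 3) (u : ℤ) :
    c2 (l * A) u = c2 (3 * A) u := by
  obtain ⟨j, hj⟩ : ∃ j, l = 4 * j + 3 := ⟨l / 4, by omega⟩
  rcases hA.2 with ⟨-, h4⟩ | ⟨M, hM, -, h4⟩
  · omega
  · have e : l * A = 16 * (j * M) + 12 * M := by rw [hj, hM]; ring
    have e3 : 3 * A = 12 * M := by rw [hM]; ring
    unfold c2
    rw [e, e3]
    rcases h4 with h4 | h4
    · obtain ⟨k, hk⟩ : ∃ k, M = 4 * k + 2 := ⟨M / 4, by omega⟩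
      have e5 : 16 * (j * M) = 32 * (j * (2 * k + 1)) := by rw [hk]; ring
      rw [e5]
      have h1 : (32 * (j * (2 * k + 1)) + 12 * M) % 16 = 12 * M % 16 := by omega
      have h2 : (32 * (j * (2 * k + 1)) + 12 * M) % 32 = 12 * M % 32 := by omega
      rw [h1, h2]
    · have h1 : (16 * (j * M) + 12 * M) % 16 = 12 * M % 16 := by omega
      have h6 : 12 * M % 16 = 4 := by omega
      rw [h1, if_pos h6, if_pos h6]

lemma psp2_l {A l : ℕ} (hA : Fd A) (h2 : 2 ∣ A) (hl : l % 4 = 3) (a a' Y X : ℕ) :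
    psp2 (l * A) a a' Y X = psp2 (3 * A) a a' Y X := by
  unfold psp2
  rw [c2_l hA h2 hl, c2_l hA h2 hl]

/-- the divisor sums of the two projects agree -/
theorem WM_WD {A l : ℕ} (hA : Fd A) (hl : l.Prime) (h4 : l % 4 = 3) (S T : ℕ) :
    WM l A S T = WD 7 3 A l S T := by
  have hl2 : l ≠ 2 := by rintro rfl; omega
  unfold WM Wd WD
  refine Finset.sum_congr rfl fun a _ => Finset.sum_congr rfl fun a' _ => ?_
  unfold wd
  rw [Nat.Prime.primeFactors hl, Finset.prod_singleton, if_neg hl2]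
  congr 1
  by_cases h2 : 2 ∣ A
  · have hm : 2 ∈ A.primeFactors := Nat.mem_primeFactors.2 ⟨Nat.prime_two, h2, by
      have := hA.1
      omega⟩
    rw [if_pos h2, ← Finset.mul_prod_erase _ _ hm, if_pos rfl, psp2_l hA h2 h4]
    congr 1
    refine Finset.prod_congr rfl fun p hp => ?_
    rw [if_neg (Finset.ne_of_mem_erase hp)]
  · have hm : 2 ∉ A.primeFactors := fun h => h2 (Nat.dvd_of_mem_primeFactors h)
    rw [if_neg h2, one_mul, Finset.erase_eq_of_notMem hm]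
    refine Finset.prod_congr rfl fun p hp => ?_
    rw [if_neg]
    rintro rfl
    exact hm hp

/-- the character sum for `A` in `As` and an auxiliary prime `l` -/
theorem sumJ (C1 : S_C1I) (C2S : S_C2S) (hB : S_BILJ21) {A l : ℕ} (hA : As A) (hl : l.Prime)
    (hc : Cls0 l) (hlA : ¬ l ∣ A) :
    18 * ∑ u ∈ un l, chM l u * OM A u l = - (J 21 o3 A 1 1 3 * cc l) ^ 2 := by
  have hR : R21 A := hA
  have hK : K0 l := Or.inl hc
  have hco : Nat.Coprime A l := ((Nat.Prime.coprime_iff_not_dvd hl).2 hlA).symm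
  obtain ⟨Z, R, h⟩ := Pool.Agent.N218.RQ.F21.df_of hB hl hc
  have h3 : ¬ 3 ∣ A * l := n3_mul (by have := hA.2.1; omega) (by have := K0_3 hK; omega)
  have h7 : ¬ 7 ∣ A * l := n7_mul (As_7 hA) (K0_7 hK)
  have hb := (h.b A hlA).1 hR
  rw [Pool.Agent.N218.RQ.F21.r_zero h hl hc (Or.inl hR) hlA,
    Pool.Agent.N218.RQ.F21.z_val h hl hc hR hlA] at hb
  rw [C1 A l hA.1.1 hA.1 (Fn_K0 hK) hco (cop21 h3 h7), sum_WM, filt_pos h7]
  have e : ∑ T ∈ (range (A * l)).filter (fun T => 3 ∣ T ∧ 7 ∣ A * l - T), WM A l (A * l - T) T =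
      - ∑ T ∈ (range (A * l)).filter (fun T => 3 ∣ T ∧ 7 ∣ A * l - T),
        sl A l T * ld21 (A * l) T := by
    rw [← Finset.sum_neg_distrib]
    refine Finset.sum_congr rfl fun T hT => ?_
    rw [Finset.mem_filter, Finset.mem_range] at hT
    obtain ⟨h1, h2, h4⟩ := hT
    have h0 : 0 < T := by
      rcases Nat.eq_zero_or_pos T with rfl | h0
      · exact absurd (by simpa using h4) h7
      · exact h0
    rw [(C2S A l hA hK hco T h0 h1 h2 h4).1, WM_WD hA.1 hl hc.2.1]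
    exact Pool.Agent.N975.RQ.Du.t_C2D21 A l hR hl hc hlA T h0 h1 h2 h4
  rw [e]
  linarith

theorem t_KAJ (C1 : S_C1I) (C2S : S_C2S) (C2N : S_C2N) (BN : S_BILN) (X : S_XN) (K : S_KAPs)
    (hB : S_BILJ21) : S_KAJ := by
  intro A m hA hm hc
  obtain ⟨c, hk⟩ := K A hA
  obtain ⟨l, hl, h0, hlA⟩ := Pool.Agent.N218.RQ.F21.exists_l A (by have := hA.1.1; omega)
  have hco : Nat.Coprime A l := ((Nat.Prime.coprime_iff_not_dvd hl).2 hlA).symm
  have h1 := (hk l hco).1 (Or.inl h0)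
  have h2 := congrArg (Int.cast (R := ℚ)) (sumJ C1 C2S hB hA hl h0 hlA)
  have h3 := (hk m hc).2 hm
  have h4 := congrArg (Int.cast (R := ℚ)) (pairN C1 C2N BN X hA hm hc)
  have hcc : (cc l : ℚ) ≠ 0 := by exact_mod_cast Pool.Agent.N218.RQ.F21.cc_ne hl h0
  have hcv : c = -4 * (J 21 o3 A 1 1 3 : ℚ) ^ 2 := by
    apply mul_right_cancel₀ (pow_ne_zero 2 hcc)
    rw [← h1]
    push_cast at h2 ⊢
    linear_combination 4 * h2
  have h5 : (N7 A (A * m) : ℚ) = 16 * (J 21 o3 A 1 1 3 : ℚ) ^ 2 * (cn m : ℚ) ^ 2 := by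
    rw [hcv] at h3
    push_cast at h3 h4 ⊢
    linear_combination (-4 : ℚ) * h3 + h4
  exact_mod_cast h5

end Pool.Agent.N877.P21G
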