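import Pool.Agent.N877.P21G.Sig

/-!
# Project P21G: the class `Kn`, the character sum of the symbol and the rank form of the conjecture
-/

set_option autoImplicit false

namespace Pool.Agent.N877.P21G

open Finset
open Pool.Agent.N969.P15 (Ev un Qc Qe chE)
open Pool.Agent.N969.P17G (sgnE chP chM)
open Pool.Agent.N975.S21 (Sy sum0 lam_eq sy_of sigma_ne FinPts)
open Pool.Agent.N972.GC (CY CM)
open Pool.Agent.Y687 (RankBSD rankBSD)
open Pool.Agent.N402.P21G (chM_odd chM_even)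

lemma Kn_3 {n : ℕ} (h : Kn n) : ¬ 3 ∣ n := by
  have := h.2.1
  omega

lemma cop21_Kn {n : ℕ} (h : Kn n) : Nat.Coprime 21 n := (cop21 (Kn_3 h) (Kn_7 h)).symm

/-- the character sum of the symbol over the cusps -/
theorem kn_sum (hD : S_DIAGN) {R : Type} [CommRing R] [IsDomain R] [CharZero R] {s : ℚ → R}
    (H : Sy s) {n : ℕ} (hn : Kn n) :
    2 * ∑ u ∈ un n, (chM n u : R) * s ((u : ℚ) / n) = s (1 / 3) * (cn n : R) ^ 2 := by
  have h1 := sum0 H (cop21_Kn hn) (chM n)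
  have h2 : ((4 * ∑ u ∈ un n, chM n u * N877.P21.Fp u n : ℤ) : R) = ((cn n ^ 2 : ℤ) : R) := by
    rw [hD n hn]
  rw [lam_eq H] at h1
  push_cast at h1 h2
  rw [h1]
  push_cast
  linear_combination s (1 / 3) * h2

theorem cn_ne {n : ℕ} (h : Lvs) (hn : Kn n) (hC : CM (-7) 3 n) : cn n ≠ 0 := by
  obtain ⟨y, hy, ho⟩ := h.cnv hn
  rw [hy]
  refine mul_ne_zero (by positivity) ?_
  rintro rfl
  exact absurd (ho.2 hC) (by decide)

/-- **the rank form of the conjecture for `Kn`, odd discriminants** -/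
theorem rank_KnO (h : Lvs) {n : ℕ} (hn : Kn n) (h4 : n % 4 = 3) (hs : Squarefree n)
    (hC : CM (-7) 3 n) (hfin : FinPts (-(n : ℤ))) :
    RankBSD (-5211 * (-(n : ℤ)) ^ 2) (-31050 * (-(n : ℤ)) ^ 3) := by
  have hab : (-(n : ℤ)).natAbs = n := by rw [Int.natAbs_neg, Int.natAbs_natCast]
  obtain ⟨s, κ, hκ, hs', hg⟩ := Pool.Agent.N402.MF21.symb21
  obtain ⟨F, hF, hFp, hF1⟩ := Pool.Agent.N974.Gen.ne21O Pool.Agent.N402.MF21.eigen21 hκ hs'
    (-(n : ℤ))
    (by
      intro x hx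
      rw [dvd_neg] at hx
      exact Int.squarefree_natCast.2 hs x hx)
    (by rw [hab]; omega) (by omega)
    (by
      rw [hab]
      intro h0
      have h1 := kn_sum (R := ℤ) h.diagn (sy_of hg) hn
      have h2 : ∑ u ∈ un n, chM n u * s ((u : ℚ) / n) = 0 := by
        rw [← h0]
        refine Finset.sum_congr rfl fun u _ => ?_
        rw [chM_odd (by omega) hs]
      have h3 : s (1 / 3) * cn n ^ 2 = 0 := by
        simp only [Int.cast_id] at h1
        rw [← h1, h2, mul_zero]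
      exact mul_ne_zero (sigma_ne hg) (pow_ne_zero 2 (cn_ne h hn hC)) h3)
  exact rankBSD hF hFp hF1 hfin

/-- **the rank form of the conjecture for `Kn`, even discriminants** -/
theorem rank_KnE (h : Lvs) {n : ℕ} (hn : Kn n) (hE : Ev n) (hC : CM (-7) 3 n)
    (hfin : FinPts (-((n / 4 : ℕ) : ℤ))) :
    RankBSD (-5211 * (-((n / 4 : ℕ) : ℤ)) ^ 2) (-31050 * (-((n / 4 : ℕ) : ℤ)) ^ 3) := by
  obtain ⟨s, κ, hκ, hs', hg⟩ := Pool.Agent.N402.MF21.symb21
  have h2n : 2 ∣ n := by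
    obtain ⟨k, rfl, -⟩ := hE
    exact ⟨2 * k, by ring⟩
  obtain ⟨F, hF, hFp, hF1⟩ := Pool.Agent.N974.Gen.ne21E Pool.Agent.N402.MF21.eigen21 hκ hs' hE
    (by
      intro h0
      have h1 := kn_sum (R := ℤ) h.diagn (sy_of hg) hn
      have h2 : ∑ u ∈ un n, chM n u * s ((u : ℚ) / n) = 0 := by
        rw [← h0]
        refine Finset.sum_congr rfl fun u _ => ?_
        rw [chM_even h2n]
      have h3 : s (1 / 3) * cn n ^ 2 = 0 := by
        simp only [Int.cast_id] at h1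
        rw [← h1, h2, mul_zero]
      exact mul_ne_zero (sigma_ne hg) (pow_ne_zero 2 (cn_ne h hn hC)) h3)
  exact rankBSD hF hFp hF1 hfin

end Pool.Agent.N877.P21G
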