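import Pool.Agent.N877.P21G.Defs
import Pool.Agent.N970.RQ.L7
import Pool.Agent.N919.RR.Kh
import Pool.Agent.N919.P17.R
import Pool.Agent.N402.P21G.DE

/-!
# Project P21G: the number of vectors of the lattice ramified at `7` and its parity (R7, R7r)
-/

set_option autoImplicit false

namespace Pool.Agent.N877.P21G.R7

open Finset Matrix Pool.Agent.N877.TF Pool.Agent.N877.P21G
open Pool.Agent.N919.P17 (mat sm card_Fr card_adj fin_of_bd pos_of_bd Tors2 FinFr)
open Pool.Agent.N919.RE (Dat TorsE)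
open Pool.Agent.N969.RQ (vec7 ip7)
open Pool.Agent.N970.RQ (F7 G7 adj7 tors7)

/-- the lattice of determinant `14` -/
def S7 : Co := ⟨2, 4, 2, 0, 0, -1⟩

theorem nm7 (v : V) : S7.nm v = ip7 v v := by
  simp only [S7, Co.nm, ip7]; ring

theorem d7 : S7.d = 14 := by simp only [S7, Co.d]; norm_num

theorem even7 (v : V) : Even (S7.B v v) := by
  simp only [S7, Co.B]
  exact ⟨v 0 ^ 2 + 2 * v 1 ^ 2 + v 2 ^ 2 - v 1 * v 2, by ring⟩

theorem bd7 (v : V) (i : Fin 3) : v i ^ 2 ≤ 2 * S7.B v v := by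
  have e : S7.B v v = 2 * v 0 ^ 2 + 3 * v 1 ^ 2 + v 2 ^ 2 + (v 1 - v 2) ^ 2 := by
    simp only [S7, Co.B]; ring
  rw [e]
  have a0 := sq_nonneg (v 0)
  have a1 := sq_nonneg (v 1)
  have a2 := sq_nonneg (v 2)
  have a3 := sq_nonneg (v 1 - v 2)
  fin_cases i
  · show v 0 ^ 2 ≤ _
    linarith
  · show v 1 ^ 2 ≤ _
    linarith
  · show v 2 ^ 2 ≤ _
    linarith

theorem mat7 : mat S7 = F7 := by
  decide +kernel

theorem mod7 (v : V) : S7.nm v % 4 = 0 ∨ S7.nm v % 4 = 3 := by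
  have e : S7.nm v = -(v 0) ^ 2 + 4 * (2 * v 0 ^ 2 + v 1 ^ 2 + 2 * v 2 ^ 2 + v 1 * v 2) := by
    rw [nm7, ip7]; ring
  rw [e]
  generalize 2 * v 0 ^ 2 + v 1 ^ 2 + 2 * v 2 ^ 2 + v 1 * v 2 = q
  obtain ⟨k, hk⟩ := Int.even_or_odd' (v 0)
  rcases hk with hk | hk
  · left
    rw [hk]
    have : -(2 * k) ^ 2 + 4 * q = 4 * (q - k ^ 2) := by ring
    rw [this]; omega
  · right
    rw [hk]
    have : -(2 * k + 1) ^ 2 + 4 * q = 4 * (q - k ^ 2 - k - 1) + 3 := by ring
    rw [this]; omega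

theorem mem7 (n : ℤ) (v : V) : v ∈ vec7 n ↔ S7.nm v = n := by
  rw [nm7]
  exact Pool.Agent.N402.P21G.mem_vec7 n v

theorem frames {a b c p q r : ℤ} (ha : 0 < a) (hD : 0 < 4 * a * c - b ^ 2) (hr : (2 : ℤ) ∣ r)
    (hdM : (sm (2 * a) b (2 * c) p q r).det = 14) :
    Nat.card (S7.Fr (2 * a) b (2 * c) p q r) = 4 := by
  have hP : Pool.Agent.N970.PC.PosH 7 (sm (2 * a) b (2 * c) p q r) := by
    refine ⟨?_, ?_, ?_, by rw [hdM]; norm_num, ?_, ?_, ?_⟩
    · ext i j
      fin_cases i <;> fin_cases j <;> rfl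
    · show 0 < 2 * a
      linarith
    · show 0 < 2 * a * (2 * c) - b ^ 2
      linarith
    · exact ⟨a, rfl⟩
    · exact ⟨c, rfl⟩
    · exact hr
  rw [card_Fr, mat7, card_adj (by norm_num) adj7 (by decide) hdM]
  exact tors7 hP

theorem tors2 : Tors2 S7 S7 1 1 8 := by
  intro a b c p q r ha hD hodd hdet
  rw [d7] at hdet
  have hr : (2 : ℤ) ∣ r := by
    have h1 : Even ((4 * a * c - b ^ 2) * r) := by
      rw [hdet]; exact ⟨7 + (c * p ^ 2 - b * p * q + a * q ^ 2), by ring⟩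
    rcases Int.even_mul.1 h1 with h | h
    · exact absurd h (Int.not_even_iff_odd.2 hodd)
    · exact h.two_dvd
  have hdM : (sm (2 * a) b (2 * c) p q r).det = 14 := by
    rw [sm, det_fin_three]
    simp
    linear_combination hdet
  rw [frames ha hD hr hdM]

theorem torsE : TorsE S7 S7 1 1 8 7 := by
  intro a b c p q r' ha hD hdet
  have hdM : (sm (2 * a) b (2 * c) p q (2 * r')).det = 14 := by
    rw [sm, det_fin_three]
    simp
    linear_combination 2 * hdet
  rw [frames ha hD ⟨r', rfl⟩ hdM]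

theorem dat7 : Dat S7 S7 1 1 8 7 where
  d1 := by rw [d7]; norm_num
  d2 := by rw [d7]; norm_num
  f1 := fin_of_bd bd7
  f2 := fin_of_bd bd7
  p1 := pos_of_bd bd7
  p2 := pos_of_bd bd7
  e1 := even7
  e2 := even7
  m1 := mod7
  m2 := mod7
  T := torsE

theorem jac28 {n : ℕ} (h4 : n % 4 = 3) (h7 : I7 n) : jacobiSym (-(2 * 14)) n = 1 := by
  have hodd : Odd n := Nat.odd_iff.2 (by omega)
  have h2 : (2 : ℤ).gcd n = 1 := by
    change Nat.gcd 2 n = 1
    exact (Nat.Prime.coprime_iff_not_dvd Nat.prime_two).2 (by omega)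
  have e : (-(2 * 14) : ℤ) = -1 * (((7 : ℕ) : ℤ) * 2 ^ 2) := by norm_num
  rw [e, jacobiSym.mul_left, jacobiSym.mul_left, jacobiSym.sq_one' h2,
    jacobiSym.at_neg_one hodd, ZMod.χ₄_nat_three_mod_four h4,
    jacobiSym.quadratic_reciprocity_three_mod_four (by norm_num) h4]
  have : jacobiSym (n : ℤ) 7 = 1 := by
    rw [jacobiSym.mod_left]
    rcases h7 with h | h | h
    · rw [show (n : ℤ) % ((7 : ℕ) : ℤ) = 1 by omega]; norm_num
    · rw [show (n : ℤ) % ((7 : ℕ) : ℤ) = 2 by omega]; norm_num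
    · rw [show (n : ℤ) % ((7 : ℕ) : ℤ) = 4 by omega]; norm_num
  rw [this]
  norm_num

/-- **R7** -/
theorem t_R7 : S_R7 := by
  rintro n (⟨hsq, h4⟩ | ⟨m, rfl, hsq, hm⟩) h7 h5
  · have hodd : Odd n := Nat.odd_iff.2 (by omega)
    have n7 : ¬ 7 ∣ n := by
      rcases h7 with h | h | h <;> omega
    have hcop : IsCoprime S7.d (n : ℤ) := by
      rw [d7]
      have : Nat.Coprime 14 n := by
        rw [show 14 = 2 * 7 by norm_num]
        refine Nat.Coprime.mul_left ?_ ?_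
        · exact (Nat.Prime.coprime_iff_not_dvd Nat.prime_two).2 (by omega)
        · exact (Nat.Prime.coprime_iff_not_dvd (by norm_num)).2 n7
      exact_mod_cast Nat.isCoprime_iff_coprime.2 this
    have hg : ∀ p ∈ n.primeFactors, (-(2 * 14) : ℤ).gcd (p : ℤ) = 1 := by
      intro p hp
      have hpp := Nat.prime_of_mem_primeFactors hp
      have hpn := Nat.dvd_of_mem_primeFactors hp
      have h1 : Nat.Coprime 28 p := by
        rw [show 28 = 2 ^ 2 * 7 by norm_num]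
        refine Nat.Coprime.mul_left (Nat.Coprime.pow_left 2 ?_) ?_
        · refine (Nat.coprime_primes Nat.prime_two hpp).2 ?_
          rintro rfl
          omega
        · refine (Nat.coprime_primes (by norm_num) hpp).2 ?_
          rintro rfl
          exact n7 hpn
      exact h1
    have hc := Pool.Agent.N919.P17.card_vec2 (S := S7) (S' := S7) rfl (fin_of_bd bd7)
      (fin_of_bd bd7) (pos_of_bd bd7) (pos_of_bd bd7) tors2 (by rw [d7]; norm_num) hsq hodd
      (by omega) hcop (mem7 n) (mem7 n) (fun _ _ u _ => even7 u) (fun _ _ u _ => even7 u)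
    rw [d7] at hc
    refine ⟨((Rd n).filter fun g => Gc n 14 g).card, ?_, ?_⟩
    · have hc' : ((2 * (1 * (vec7 n).card + 1 * (vec7 n).card) : ℕ) : ℤ) =
          ((8 * 2 ^ n.primeFactors.card * ((Rd n).filter fun g => Gc n 14 g).card : ℕ) : ℤ) := by
        rw [hc]
      push_cast at hc'
      rw [pow_succ]
      push_cast
      linarith
    · have e : QQ n ↔ Pool.Agent.N969.P15.Qc n := by
        unfold QQ
        rw [if_neg (by omega)]
      rw [e, ← Pool.Agent.N919.P17.AF_odd hsq h4 hg (jac28 h4 h7), ← card_amb hsq h4 (by omega),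
        ← card_parity hodd]
      norm_cast
  · have hc : Pool.Agent.N919.RE.Cls 7 m := by
      unfold Pool.Agent.N919.RE.Cls
      rw [if_neg (by norm_num), jacobiSym.mod_left]
      rcases h7 with h | h | h
      · rw [show (m : ℤ) % ((7 : ℕ) : ℤ) = 2 by omega]; norm_num
      · rw [show (m : ℤ) % ((7 : ℕ) : ℤ) = 4 by omega]; norm_num
      · rw [show (m : ℤ) % ((7 : ℕ) : ℤ) = 1 by omega]; norm_num
    obtain ⟨g, h1, h2⟩ := Pool.Agent.N919.RE.main dat7 (by norm_num) (by norm_num) hsq hm hc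
      (mem7 (4 * m : ℕ)) (mem7 (4 * m : ℕ)) (by omega)
    refine ⟨g, ?_, ?_⟩
    · have h1' : ((2 * (1 * (vec7 (4 * m : ℕ)).card + 1 * (vec7 (4 * m : ℕ)).card) : ℕ) : ℤ) =
          ((8 * 2 ^ (4 * m).primeFactors.card * g : ℕ) : ℤ) := by
        rw [h1]
      push_cast at h1' ⊢
      rw [pow_succ]
      linarith
    · have e : QQ (4 * m) ↔ Pool.Agent.N969.P15.Qe (4 * m) := by
        unfold QQ
        rw [if_pos (by omega)]
      rw [e, ← h2]
      norm_cast

/-- **R7r** -/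
theorem t_R7r : S_R7r := by
  rintro n (⟨hsq, h4⟩ | ⟨m, rfl, hsq, hm⟩) h7
  · obtain ⟨g, h1, h2⟩ := Pool.Agent.N919.RR.mainO (S := S7) (S' := S7) (l := 7)
      (by rw [d7]; norm_num) rfl (fin_of_bd bd7) (fin_of_bd bd7) (pos_of_bd bd7)
      (pos_of_bd bd7) tors2 (by norm_num) hsq h4 (by rintro rfl; omega) h7 (mem7 n)
      (mem7 n) even7 even7
    refine ⟨g, ?_, ?_⟩
    · have h1' : ((2 * (1 * (vec7 n).card + 1 * (vec7 n).card) : ℕ) : ℤ) =
          ((8 * 2 ^ (n.primeFactors.card - 1) * g : ℕ) : ℤ) := by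
        rw [h1]
      have hc : 0 < n.primeFactors.card :=
        Finset.card_pos.2 ⟨7, Nat.mem_primeFactors.2 ⟨by norm_num, h7, hsq.ne_zero⟩⟩
      obtain ⟨k, hk⟩ : ∃ k, n.primeFactors.card = k + 1 := ⟨_, (Nat.succ_pred_eq_of_pos hc).symm⟩
      rw [hk] at h1' ⊢
      rw [Nat.add_sub_cancel] at h1'
      push_cast at h1'
      rw [pow_succ]
      linarith
    · have e : QQ n ↔ Pool.Agent.N969.P15.Qc n := by
        unfold QQ
        rw [if_neg (by omega)]
      rw [e, ← h2]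
      norm_cast
  · have h7m : 7 ∣ m := by omega
    obtain ⟨g, h1, h2⟩ := Pool.Agent.N919.RR.mainE dat7 (by norm_num) (by norm_num) hsq hm h7m
      (mem7 (4 * m : ℕ)) (mem7 (4 * m : ℕ))
    refine ⟨g, ?_, ?_⟩
    · have h1' : ((2 * (1 * (vec7 (4 * m : ℕ)).card + 1 * (vec7 (4 * m : ℕ)).card) : ℕ) : ℤ) =
          ((8 * 2 ^ ((4 * m).primeFactors.card - 1) * g : ℕ) : ℤ) := by
        rw [h1]
      have hc : 0 < (4 * m).primeFactors.card :=
        Finset.card_pos.2 ⟨7, Nat.mem_primeFactors.2 ⟨by norm_num, h7,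
          by have := hsq.ne_zero; omega⟩⟩
      obtain ⟨k, hk⟩ : ∃ k, (4 * m).primeFactors.card = k + 1 :=
        ⟨_, (Nat.succ_pred_eq_of_pos hc).symm⟩
      rw [hk] at h1' ⊢
      rw [Nat.add_sub_cancel] at h1'
      push_cast at h1' ⊢
      rw [pow_succ]
      linarith
    · have e : QQ (4 * m) ↔ Pool.Agent.N969.P15.Qe (4 * m) := by
        unfold QQ
        rw [if_pos (by omega)]
      rw [e, ← h2]
      norm_cast

end Pool.Agent.N877.P21G.R7
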