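import Pool.Agent.N877.P21G.KnV
import Pool.Agent.N877.P21G.R7
import Pool.Agent.N816.PG21.Xn
import Pool.Agent.N218.P21G.Biln
import Pool.Agent.N975.P21G.BilI
import Pool.Agent.N971.P21G.Bil3
import Pool.Agent.N970.P21G.Hen
import Pool.Agent.N971.P21G.He7
import Pool.Agent.N971.P21G.Cnf7
import Pool.Agent.N974.P21G.Kp
import Pool.Agent.N970.RQ.B21e
import Pool.Agent.N970.RQ.Bil7c

/-!
# Project P21G: the leaves from the orthogonality and the vanishing
-/

set_option autoImplicit false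

namespace Pool.Agent.N877.P21G

/-- the diagonal identity of the class `Kn` -/
theorem diagn0 : S_DIAGN := Pool.Agent.N402.P21G.t_DIAGN Pool.Agent.N973.P21.C.t_C1A
  Pool.Agent.N402.P15.t_C1B Pool.Agent.N402.P15.t_C1BE Pool.Agent.N871.G21.t_C2N
  Pool.Agent.N871.G21.t_C2N2 Pool.Agent.N218.P21G.t_BILN Pool.Agent.N218.P21G.t_BILN2
  Pool.Agent.N970.P21G.t_HEN Pool.Agent.N971.P21G.t_HE7

/-- **the leaves from the orthogonality and the vanishing** -/
theorem lvs_of (o3 : S_ORT3) (o21 : S_ORT21) (on : S_ORTN) (v3 : S_VAN3) (v21 : S_VAN21)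
    (vn : S_VANN') : Lvs where
  bil3 := Pool.Agent.N971.P21G.B3.t_BIL3
  bil21 := Pool.Agent.N971.P21G.B3.t_BIL21
  bili := Pool.Agent.N975.P21G.t_BILI
  biln := Pool.Agent.N218.P21G.t_BILN
  biln2 := Pool.Agent.N218.P21G.t_BILN2
  hen := Pool.Agent.N970.P21G.t_HEN
  ort3 := o3
  ort21 := o21
  ortn := on
  van3 := v3
  van21 := v21
  vann := vn
  cn7 := Pool.Agent.N971.P21G.t_CN7
  he7 := Pool.Agent.N971.P21G.t_HE7
  r7 := R7.t_R7
  r7r := R7.t_R7r
  xn := Pool.Agent.N816.Xn.t_XN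
  kapi := Pool.Agent.N974.P21G.Od.t_KAPi
  kaps := Pool.Agent.N974.P21G.Od.t_KAPs diagn0
  bilj := Pool.Agent.N970.RQ3.t_BILJ21
  biljn := Pool.Agent.N970.RQ.t_BILJ21n

end Pool.Agent.N877.P21G
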