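import Pool.Agent.N877.P21G.KaJ
import Pool.Agent.N855.RQ.Pc
import Pool.Agent.N975.S21.All

/-!
# Project P21G: the parity induction for `Ai` and `A0`
-/

set_option autoImplicit false

namespace Pool.Agent.N877.P21G

open Finset
open Pool.Agent.N969.P15 (Ev un Qc Qe)
open Pool.Agent.N969.RQ (Fd vec7 ud)
open Pool.Agent.N877.P21 (cc Cls0 Cls0e Cl3 Cl3e Cl7 Cl7e Cl21 Cl21e)
open Pool.Agent.N855.RQp (Val sum_val)

/-! ### the Gross sums of the perfect classes -/

lemma qq_odd {n : ℕ} (h : n % 4 = 3) : QQ n ↔ Qc n := by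
  unfold QQ
  rw [if_neg (by omega)]

lemma qq_even {n : ℕ} (h : Ev n) : QQ n ↔ Qe n := by
  unfold QQ
  obtain ⟨k, rfl, -⟩ := h
  rw [if_pos ⟨2 * k, by ring⟩]

theorem cc07 {m : ℕ} (h : K0 m ∨ K7 m) : Val (m.primeFactors.card + 1) (cc m) (QQ m) := by
  rcases h with (h | h) | (h | h)
  · obtain ⟨y, h1, h2⟩ := Pool.Agent.N975.S21.All.s_PAR m (Or.inl h)
    exact ⟨y, h1, h2.trans (qq_odd h.2.1).symm⟩
  · obtain ⟨y, h1, h2⟩ := Pool.Agent.N975.S21.All.s_PARE m (Or.inl h)
    exact ⟨y, h1, h2.trans (qq_even h.1).symm⟩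
  · obtain ⟨y, h1, h2⟩ := Pool.Agent.N975.S21.All.s_PAR m (Or.inr h)
    exact ⟨y, h1, h2.trans (qq_odd h.2.1).symm⟩
  · obtain ⟨y, h1, h2⟩ := Pool.Agent.N975.S21.All.s_PARE m (Or.inr h)
    exact ⟨y, h1, h2.trans (qq_even h.1).symm⟩

theorem cc321 {m : ℕ} (h : K3 m ∨ K21 m) : Val m.primeFactors.card (cc m) (QQ m) := by
  rcases h with (h | h) | (h | h)
  · obtain ⟨y, h1, h2⟩ := Pool.Agent.N975.S21.All.s_PARA3 m (Or.inr h)
    exact ⟨y, h1, h2.trans (qq_odd h.2.1).symm⟩
  · obtain ⟨y, h1, h2⟩ := Pool.Agent.N975.S21.All.s_PARA3E m (Or.inr h)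
    exact ⟨y, h1, h2.trans (qq_even h.1).symm⟩
  · obtain ⟨y, h1, h2⟩ := Pool.Agent.N975.S21.All.s_PARA3 m (Or.inl h)
    exact ⟨y, h1, h2.trans (qq_odd h.2.1).symm⟩
  · obtain ⟨y, h1, h2⟩ := Pool.Agent.N975.S21.All.s_PARA3E m (Or.inl h)
    exact ⟨y, h1, h2.trans (qq_even h.1).symm⟩

/-! ### the constants -/

/-- the constant of `A` is `4 ^ ω y² / 9` -/
def YA (A : ℕ) (y : ℤ) : Prop :=
  (Ai A → ∃ c : ℚ, 9 * c = 4 ^ A.primeFactors.card * (y : ℚ) ^ 2 ∧ ∀ m : ℕ, Nat.Coprime A m →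
    (K0 m → (P7 A (A * m) : ℚ) = c * (cc m : ℚ) ^ 2) ∧
    (K3 m → (P7 A (A * m) : ℚ) = 4 * c * (cc m : ℚ) ^ 2) ∧
    (K21 m → (P7 A (A * m) : ℚ) = c * (cc m : ℚ) ^ 2)) ∧
  (A0 A → ∃ c : ℚ, 9 * c = 4 ^ A.primeFactors.card * (y : ℚ) ^ 2 ∧ ∀ m : ℕ, Nat.Coprime A m →
    (K0 m → (P7 A (A * m) : ℚ) = c * (cc m : ℚ) ^ 2) ∧
    (K7 m → 4 * (P7 A (A * m) : ℚ) = c * (cc m : ℚ) ^ 2))

lemma card_mul {a b : ℕ} (h : Nat.Coprime a b) :
    (a * b).primeFactors.card = a.primeFactors.card + b.primeFactors.card := by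
  rw [Nat.Coprime.primeFactors_mul h, Finset.card_union_of_disjoint h.disjoint_primeFactors]

lemma val_of_sq {k : ℕ} {x z : ℤ} {e : Prop} (h : (3 * x) ^ 2 = (2 ^ k * z) ^ 2)
    (hz : Odd z ↔ e) : Val k x e := by
  refine Val.div (m := 3) (by decide) ?_
  rcases sq_eq_sq_iff_eq_or_eq_neg.1 h with h | h
  · exact ⟨z, h, hz⟩
  · exact ⟨-z, by rw [h]; ring, by rw [odd_neg]; exact hz⟩

/-- the general shape: `9 P = 4 ^ (k - a) y² (2 ^ a z)²` -/
lemma val_gen {k a b : ℕ} {P x y z : ℤ} {e : Prop} (hk : a + b = k) (hx : P = x ^ 2)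
    (h : (9 : ℚ) * P = (4 ^ a * (y : ℚ) ^ 2) * ((2 ^ b * z : ℤ) : ℚ) ^ 2) (hz : Odd z ↔ e) :
    Val k x (Odd y ∧ e) := by
  refine val_of_sq (z := y * z) ?_ (by rw [Int.odd_mul, hz])
  rw [hx] at h
  have h4 : (4 : ℚ) ^ a = (2 ^ a) ^ 2 := by
    rw [← pow_mul, mul_comm a 2, pow_mul]
    norm_num
  rw [h4] at h
  have : ((3 * x : ℤ) : ℚ) ^ 2 = ((2 ^ k * (y * z) : ℤ) : ℚ) ^ 2 := by
    rw [← hk, pow_add]
    push_cast at h ⊢
    linear_combination h
  exact_mod_cast this

lemma val_I {A m : ℕ} {y x : ℤ} (hY : YA A y) (hA : Ai A) (hm : K0 m) (hc : Nat.Coprime A m)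
    (hx : P7 A (A * m) = x ^ 2) : Val ((A * m).primeFactors.card + 1) x (Odd y ∧ QQ m) := by
  obtain ⟨c, h9, hP⟩ := hY.1 hA
  obtain ⟨z, h1, h2⟩ := cc07 (Or.inl hm)
  refine val_gen (a := A.primeFactors.card) (b := m.primeFactors.card + 1)
    (by rw [card_mul hc]; ring) hx ?_ h2
  rw [← h1, ← h9, (hP m hc).1 hm]
  ring

lemma val_3 {A m : ℕ} {y x : ℤ} (hY : YA A y) (hP : Pr3 A m)
    (hx : P7 A (A * m) = x ^ 2) : Val ((A * m).primeFactors.card + 1) x (Odd y ∧ QQ m) := by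
  obtain ⟨⟨hA, hm⟩ | ⟨hA, hm⟩, hc⟩ := hP
  · obtain ⟨c, h9, hP⟩ := hY.1 hA
    obtain ⟨z, h1, h2⟩ := cc321 (Or.inl hm)
    have h3 := (hP m hc).2.1 hm
    refine Val.div (m := 3) (by decide) ?_
    have h4 : (3 * x) ^ 2 = (2 ^ ((A * m).primeFactors.card + 1) * (y * z)) ^ 2 := by
      have h5 : ((3 * x : ℤ) : ℚ) ^ 2 =
          ((2 ^ ((A * m).primeFactors.card + 1) * (y * z) : ℤ) : ℚ) ^ 2 := by
        rw [hx, h1] at h3
        have h4 : (4 : ℚ) ^ A.primeFactors.card = (2 ^ A.primeFactors.card) ^ 2 := by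
          rw [← pow_mul, mul_comm _ 2, pow_mul]
          norm_num
        rw [h4] at h9
        rw [card_mul hc, pow_succ, pow_add]
        push_cast at h3 h9 ⊢
        linear_combination 9 * h3 + 4 * (2 ^ m.primeFactors.card * (z : ℚ)) ^ 2 * h9
      exact_mod_cast h5
    rcases sq_eq_sq_iff_eq_or_eq_neg.1 h4 with h | h
    · exact ⟨y * z, h, by rw [Int.odd_mul, h2]⟩
    · exact ⟨-(y * z), by rw [h]; ring, by rw [odd_neg, Int.odd_mul, h2]⟩
  · obtain ⟨c, h9, hP⟩ := hY.2 hA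
    obtain ⟨z, h1, h2⟩ := cc07 (Or.inl hm)
    refine val_gen (a := A.primeFactors.card) (b := m.primeFactors.card + 1)
      (by rw [card_mul hc]; ring) hx ?_ h2
    rw [← h1, ← h9, (hP m hc).1 hm]
    ring

lemma val_21 {A m : ℕ} {y x : ℤ} (hY : YA A y) (hP : Pr21 A m)
    (hx : P7 A (A * m) = x ^ 2) : Val (A * m).primeFactors.card x (Odd y ∧ QQ m) := by
  obtain ⟨⟨hA, hm⟩ | ⟨hA, hm⟩, hc⟩ := hP
  · obtain ⟨c, h9, hP⟩ := hY.1 hA
    obtain ⟨z, h1, h2⟩ := cc321 (Or.inr hm)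
    refine val_gen (a := A.primeFactors.card) (b := m.primeFactors.card)
      (by rw [card_mul hc]) hx ?_ h2
    rw [← h1, ← h9, (hP m hc).2.2 hm]
    ring
  · obtain ⟨c, h9, hP⟩ := hY.2 hA
    obtain ⟨z, h1, h2⟩ := cc07 (Or.inr hm)
    have h3 := (hP m hc).2 hm
    refine Val.div (m := 3) (by decide) ?_
    have h4 : (3 * x) ^ 2 = (2 ^ (A * m).primeFactors.card * (y * z)) ^ 2 := by
      have h5 : ((3 * x : ℤ) : ℚ) ^ 2 =
          ((2 ^ (A * m).primeFactors.card * (y * z) : ℤ) : ℚ) ^ 2 := by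
        rw [hx, h1] at h3
        have h4 : (4 : ℚ) ^ A.primeFactors.card = (2 ^ A.primeFactors.card) ^ 2 := by
          rw [← pow_mul, mul_comm _ 2, pow_mul]
          norm_num
        rw [h4] at h9
        rw [card_mul hc, pow_add]
        rw [pow_succ] at h3
        push_cast at h3 h9 ⊢
        linear_combination (9 / 4 : ℚ) * h3 + (2 ^ m.primeFactors.card * (z : ℚ)) ^ 2 * h9
      exact_mod_cast h5
    rcases sq_eq_sq_iff_eq_or_eq_neg.1 h4 with h | h
    · exact ⟨y * z, h, by rw [Int.odd_mul, h2]⟩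
    · exact ⟨-(y * z), by rw [h]; ring, by rw [odd_neg, Int.odd_mul, h2]⟩

/-! ### the relations -/

lemma pd_mem {n A : ℕ} (h : A ∈ pd n) : A ∣ n ∧ Nat.Coprime A (n / A) ∧ (A = 1 ∨ Fd A) ∧ ¬ 7 ∣ A := by
  classical
  unfold pd ud at h
  rw [mem_filter, mem_filter, Nat.mem_divisors] at h
  exact ⟨h.1.1.1, h.1.2, h.2⟩

lemma val_rel {k : ℕ} {a b : ℤ} {e f : Prop} (ha : Val k a e) (hb : Val k b f)
    (h : (2 : ℤ) ^ (k + 1) ∣ a + b) : e ↔ f := by
  obtain ⟨u, h1, h2⟩ := ha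
  obtain ⟨v, h3, h4⟩ := hb
  obtain ⟨w, h5⟩ := h
  rw [← h2, ← h4]
  have h6 : u + v = 2 * w := by
    have : (2 : ℤ) ^ k * (u + v) = 2 ^ k * (2 * w) := by
      rw [h1, h3] at h5
      rw [pow_succ] at h5
      linarith
    exact mul_left_cancel₀ (by positivity) this
  have h7 : Even (u + v) := ⟨w, by rw [h6]; ring⟩
  rw [Int.even_add'] at h7
  exact h7

lemma val_dvd {k : ℕ} {a b : ℤ} (ha : (2 : ℤ) ^ k ∣ a) (h : (2 : ℤ) ^ (k + 1) ∣ a + b) :
    (2 : ℤ) ^ k ∣ b := by
  have h1 : (2 : ℤ) ^ k ∣ a + b := dvd_trans (pow_dvd_pow 2 (Nat.le_succ k)) h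
  exact (dvd_add_right ha).1 h1

open Classical in
/-- the relation for `3 ∣ n`, `7` inert -/
theorem rel3 (O : S_ORT3) (V : S_VAN3) (R : S_R7) {y : ℕ → ℤ} {n : ℕ} (hn : Fn n) (h3 : 3 ∣ n)
    (h7 : I7 n) (hY : ∀ A ∈ pd n, Pr3 A (n / A) → YA A (y A)) :
    QQ n ↔ Odd ((pd n).filter fun A => Pr3 A (n / A) ∧ Odd (y A) ∧ QQ (n / A)).card := by
  obtain ⟨x, hx, hd⟩ := O n hn h3 h7
  have hn4 : 4 < n := by
    have := hn.pos
    unfold I7 at h7
    omega
  obtain ⟨g, hg, hq⟩ := R n hn h7 hn4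
  refine val_rel (k := n.primeFactors.card + 1) ⟨g, hg, hq⟩ (sum_val fun A hA => ?_) hd
  obtain ⟨hAn, -, -, -⟩ := pd_mem hA
  have e : A * (n / A) = n := Nat.mul_div_cancel' hAn
  by_cases hP : Pr3 A (n / A)
  · have := val_3 (hY A hA hP) hP (x := x A) (by rw [e]; exact hx A hA)
    rw [e] at this
    exact this.congr (by tauto)
  · have h0 : x A = 0 := by
      have := V n hn h3 h7 A hA hP
      rw [hx A hA] at this
      exact pow_eq_zero_iff (by norm_num) |>.1 this
    rw [h0]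
    exact Val.zero _ fun h => hP h.1

open Classical in
/-- the relation for `21 ∣ n` -/
theorem rel21 (O : S_ORT21) (V : S_VAN21) (R : S_R7r) {y : ℕ → ℤ} {n : ℕ} (hn : Fn n)
    (h21 : 21 ∣ n) (hY : ∀ A ∈ pd n, Pr21 A (n / A) → YA A (y A)) :
    QQ n ↔ Odd ((pd n).filter fun A => Pr21 A (n / A) ∧ Odd (y A) ∧ QQ (n / A)).card := by
  obtain ⟨x, hx, hd⟩ := O n hn h21
  obtain ⟨g, hg, hq⟩ := R n hn (dvd_trans (by norm_num) h21)
  refine val_rel (k := n.primeFactors.card) ⟨g, hg, hq⟩ (sum_val fun A hA => ?_) hd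
  obtain ⟨hAn, -, -, -⟩ := pd_mem hA
  have e : A * (n / A) = n := Nat.mul_div_cancel' hAn
  by_cases hP : Pr21 A (n / A)
  · have := val_21 (hY A hA hP) hP (x := x A) (by rw [e]; exact hx A hA)
    rw [e] at this
    exact this.congr (by tauto)
  · have h0 : x A = 0 := by
      have := V n hn h21 A hA hP
      rw [hx A hA] at this
      exact pow_eq_zero_iff (by norm_num) |>.1 this
    rw [h0]
    exact Val.zero _ fun h => hP h.1

/-! ### the existence -/

set_option maxRecDepth 100000 in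
lemma cc_three : cc 3 ^ 2 = 36 := by decide +kernel

set_option maxRecDepth 100000 in
lemma cc_seven : cc 7 ^ 2 = 144 := by decide +kernel

/-- the measure of the induction -/
def mu (A : ℕ) : ℕ := 2 * A.primeFactors.card + if 3 ∣ A then 0 else 1

lemma K0_gt {m : ℕ} (h : K0 m) : 1 < m := by
  have h8 := K0_3 h
  rcases h with h2 | h2
  · have := h2.2.1
    omega
  · obtain ⟨k, hk, -⟩ := h2.1
    omega

lemma Ai_3 {A : ℕ} (h : Ai A) : ¬ 3 ∣ A := by
  have := h.2.1
  omega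

lemma Fd.sqf {A p : ℕ} (h : Fd A) (hp : p.Prime) (h2 : p ≠ 2) : ¬ p * p ∣ A := by
  intro hd
  rcases h.2 with ⟨hs, -⟩ | ⟨M, rfl, hs, -⟩
  · have := hs p hd
    exact hp.one_lt.ne' (Nat.isUnit_iff.1 this)
  · have hc : Nat.Coprime (p * p) 4 := by
      have : Nat.Coprime p 2 := (Nat.coprime_primes hp Nat.prime_two).2 h2
      have h4 : (4 : ℕ) = 2 * 2 := rfl
      rw [h4]
      exact Nat.Coprime.mul_left (Nat.Coprime.mul_right this this) (Nat.Coprime.mul_right this this)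
    have := hs p (hc.dvd_of_dvd_mul_left hd)
    exact hp.one_lt.ne' (Nat.isUnit_iff.1 this)

/-- multiplication of a positive discriminant by `3` or `7` -/
lemma Fn_mul {A p : ℕ} (h : Fd A) (hp : p.Prime) (h4 : p % 4 = 3) (hpA : ¬ p ∣ A) : Fn (p * A) := by
  have h0 := h.1
  rcases h.2 with ⟨hs, h1⟩ | ⟨M, hM, hs, h1⟩
  · refine Or.inl ⟨(Nat.squarefree_mul ((Nat.Prime.coprime_iff_not_dvd hp).2 hpA)).2
      ⟨hp.prime.squarefree, hs⟩, ?_⟩
    rw [Nat.mul_mod, h4, h1]
  · have hpM : ¬ p ∣ M := fun h => hpA (by rw [hM]; exact dvd_mul_of_dvd_right h 4)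
    refine Or.inr ⟨p * M, by rw [hM]; ring, (Nat.squarefree_mul
      ((Nat.Prime.coprime_iff_not_dvd hp).2 hpM)).2 ⟨hp.prime.squarefree, hs⟩, ?_⟩
    rw [Nat.mul_mod, h4]
    omega

lemma card_lt {A B : ℕ} (hB : B ≠ 0) (h : A ∣ B) (hne : A ≠ B) (hc : Nat.Coprime A (B / A)) :
    A.primeFactors.card < B.primeFactors.card := by
  obtain ⟨k, rfl⟩ := h
  have hA : 0 < A := Nat.pos_of_ne_zero fun h => hB (by rw [h, zero_mul])
  rw [Nat.mul_div_cancel_left k hA] at hc
  rw [card_mul hc]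
  have hk : 1 < k := by
    rcases Nat.lt_or_ge 1 k with h | h
    · exact h
    · exfalso
      interval_cases k
      · simp at hB
      · simp at hne
  have : 0 < k.primeFactors.card := Finset.card_pos.2 (Nat.nonempty_primeFactors.2 hk)
  omega

lemma I7_3 {D : ℕ} (h : jacobiSym D 7 = -1) : I7 (3 * D) := by
  have h1 : jacobiSym D 7 = jacobiSym ((D % 7 : ℕ) : ℤ) 7 := by
    rw [Int.natCast_mod, jacobiSym.mod_left]
  rw [h1] at h
  have h2 : D % 7 < 7 := Nat.mod_lt _ (by norm_num)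
  unfold I7
  have h3 : D % 7 ≠ 0 := by
    intro h6
    rw [h6] at h
    norm_num at h
  have h4 : D % 7 ≠ 1 := by
    intro h6
    rw [h6] at h
    norm_num at h
  have h5 : D % 7 ≠ 2 := by
    intro h6
    rw [h6] at h
    norm_num at h
  have h6 : D % 7 ≠ 4 := by
    intro h6
    rw [h6] at h
    norm_num at h
  rcases (by omega : D % 7 = 3 ∨ D % 7 = 5 ∨ D % 7 = 6) with h | h | h
  · right; left; omega
  · left; omega
  · right; right; omega

open Classical in
theorem exists_YA (O3 : S_ORT3) (O21 : S_ORT21) (V3 : S_VAN3) (V21 : S_VAN21) (R : S_R7)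
    (Rr : S_R7r) (KI : S_KAI) (K0' : S_KA0) :
    ∀ k A : ℕ, (Ai A ∨ A0 A) → mu A ≤ k → ∃ y : ℤ, YA A y := by
  intro k
  induction k using Nat.strong_induction_on with
  | _ k ih =>
  intro D hD hk
  have ih' : ∀ A, (Ai A ∨ A0 A) → mu A < mu D → ∃ y : ℤ, YA A y := fun A hA h =>
    ih (mu A) (lt_of_lt_of_le h hk) A hA le_rfl
  rcases hD with hD | hD
  · -- `n = 3 D`
    have hD3 := Ai_3 hD
    have hcop : Nat.Coprime D 3 := ((Nat.Prime.coprime_iff_not_dvd Nat.prime_three).2 hD3).symm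
    set n := D * 3 with hn
    have hn' : n = 3 * D := by rw [hn]; ring
    have hFn : Fn n := by
      rw [hn']
      exact Fn_mul hD.1 Nat.prime_three (by norm_num) hD3
    have h3n : 3 ∣ n := ⟨D, hn'⟩
    have hI : I7 n := by
      rw [hn']
      exact I7_3 hD.2.2
    obtain ⟨x, hx, hd⟩ := O3 n hFn h3n hI
    have hn4 : 4 < n := by
      have := hFn.pos
      unfold I7 at hI
      omega
    obtain ⟨g, hg, -⟩ := R n hFn hI hn4
    have hnD : n / D = 3 := by
      rw [hn]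
      exact Nat.mul_div_cancel_left 3 (by have := hD.1.1; omega)
    have hDm : D ∈ pd n := by
      unfold pd ud
      rw [mem_filter, mem_filter, Nat.mem_divisors]
      exact ⟨⟨⟨⟨3, rfl⟩, by rw [hn]; have := hD.1.1; omega⟩, by rw [hnD]; exact hcop⟩,
        Or.inr hD.1, Ai_7 hD⟩
    have hother : ∀ A ∈ (pd n).erase D, (2 : ℤ) ^ (n.primeFactors.card + 1) ∣ x A := by
      intro A hA
      rw [mem_erase] at hA
      obtain ⟨hAn, hAc, hA1, hA7⟩ := pd_mem hA.2
      have e : A * (n / A) = n := Nat.mul_div_cancel' hAn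
      by_cases hP : Pr3 A (n / A)
      · have hmu : mu A < mu D := by
          unfold mu
          rw [if_neg hD3]
          rcases hP.1 with ⟨h1, h2⟩ | ⟨h1, h2⟩
          · have hA3 := Ai_3 h1
            have hAD : A ∣ D := by
              have hc : Nat.Coprime A 3 :=
                ((Nat.Prime.coprime_iff_not_dvd Nat.prime_three).2 hA3).symm
              exact hc.dvd_of_dvd_mul_right (by rw [← hn]; exact hAn)
            have hco : Nat.Coprime A (D / A) := by
              refine Nat.Coprime.coprime_dvd_right ?_ hAc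
              rw [hn, Nat.mul_comm D 3, Nat.mul_div_assoc 3 hAD]
              exact dvd_mul_left _ _
            have := card_lt (by have := hD.1.1; omega) hAD hA.1 hco
            rw [if_neg hA3]
            omega
          · rw [if_pos h1.2.1]
            have h5 : n.primeFactors.card = D.primeFactors.card + 1 := by
              rw [hn, card_mul hcop, Nat.Prime.primeFactors Nat.prime_three,
                Finset.card_singleton]
            have h6 : n.primeFactors.card = A.primeFactors.card + (n / A).primeFactors.card := by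
              conv_lhs => rw [← e]
              exact card_mul hAc
            have h7 : 0 < (n / A).primeFactors.card := by
              exact Finset.card_pos.2 (Nat.nonempty_primeFactors.2 (K0_gt h2))
            omega
        obtain ⟨y, hy⟩ := ih' A (by
          rcases hP.1 with h | h
          · exact Or.inl h.1
          · exact Or.inr h.1) hmu
        have := val_3 hy hP (x := x A) (by rw [e]; exact hx A hA.2)
        rw [e] at this
        exact this.dvd
      · have h0 : x A = 0 := by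
          have := V3 n hFn h3n hI A hA.2 hP
          rw [hx A hA.2] at this
          exact pow_eq_zero_iff (by norm_num) |>.1 this
        rw [h0]
        exact dvd_zero _
    rw [← add_sum_erase _ _ hDm] at hd
    have hd2 : (2 : ℤ) ^ (n.primeFactors.card + 1) ∣ x D := by
      have h1 : (2 : ℤ) ^ (n.primeFactors.card + 1) ∣
          (vec7 n).card + (x D + ∑ A ∈ (pd n).erase D, x A) :=
        dvd_trans (pow_dvd_pow 2 (Nat.le_succ _)) hd
      rw [hg] at h1
      have h2 := (dvd_add_right (Dvd.intro g rfl)).1 h1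
      exact (dvd_add_left (Finset.dvd_sum hother)).1 h2
    have hcard : n.primeFactors.card = D.primeFactors.card + 1 := by
      rw [hn, card_mul hcop, Nat.Prime.primeFactors Nat.prime_three, Finset.card_singleton]
    obtain ⟨y, hy⟩ := hd2
    rw [hcard] at hy
    obtain ⟨c, hc⟩ := KI D hD
    refine ⟨y, ⟨fun _ => ⟨c, ?_, hc⟩, fun h => absurd h.2.1 hD3⟩⟩
    have h3 : K3 3 := Or.inl ⟨Nat.prime_three.squarefree, by norm_num, by
      unfold N877.P21.Sp7
      norm_num, dvd_rfl⟩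
    have h4 := (hc 3 hcop).2.1 h3
    have h5 : (P7 D (D * 3) : ℚ) = (x D : ℚ) ^ 2 := by
      have := hx D hDm
      rw [← hn]
      exact_mod_cast this
    have h6 : ((cc (3 : ℕ) : ℤ) : ℚ) ^ 2 = 36 := by exact_mod_cast cc_three
    rw [h5, h6, hy] at h4
    have h7 : (4 : ℚ) ^ D.primeFactors.card = (2 ^ D.primeFactors.card) ^ 2 := by
      rw [← pow_mul, mul_comm _ 2, pow_mul]
      norm_num
    rw [h7]
    rw [pow_succ, pow_succ] at h4
    push_cast at h4
    linear_combination (-1 / 16 : ℚ) * h4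
  · -- `n = 7 D`
    have hD7 := A0_7 hD
    have hcop : Nat.Coprime D 7 := ((Nat.Prime.coprime_iff_not_dvd (by norm_num)).2 hD7).symm
    set n := D * 7 with hn
    have hn' : n = 7 * D := by rw [hn]; ring
    have hFn : Fn n := by
      rw [hn']
      exact Fn_mul hD.1 (by norm_num) (by norm_num) hD7
    have h21 : 21 ∣ n := by
      have h3 := hD.2.1
      have : (21 : ℕ) = 7 * 3 := rfl
      rw [hn', this]
      exact Nat.mul_dvd_mul_left 7 h3
    obtain ⟨x, hx, hd⟩ := O21 n hFn h21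
    obtain ⟨g, hg, -⟩ := Rr n hFn (dvd_trans (by norm_num) h21)
    have hnD : n / D = 7 := by
      rw [hn]
      exact Nat.mul_div_cancel_left 7 (by have := hD.1.1; omega)
    have hDm : D ∈ pd n := by
      unfold pd ud
      rw [mem_filter, mem_filter, Nat.mem_divisors]
      exact ⟨⟨⟨⟨7, rfl⟩, by rw [hn]; have := hD.1.1; omega⟩, by rw [hnD]; exact hcop⟩,
        Or.inr hD.1, hD7⟩
    have hother : ∀ A ∈ (pd n).erase D, (2 : ℤ) ^ n.primeFactors.card ∣ x A := by
      intro A hA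
      rw [mem_erase] at hA
      obtain ⟨hAn, hAc, hA1, hA7⟩ := pd_mem hA.2
      have e : A * (n / A) = n := Nat.mul_div_cancel' hAn
      by_cases hP : Pr21 A (n / A)
      · have hAD : A ∣ D := by
          have hc : Nat.Coprime A 7 :=
            ((Nat.Prime.coprime_iff_not_dvd (by norm_num)).2 hA7).symm
          exact hc.dvd_of_dvd_mul_right (by rw [← hn]; exact hAn)
        have hco : Nat.Coprime A (D / A) := by
          refine Nat.Coprime.coprime_dvd_right ?_ hAc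
          rw [hn, Nat.mul_comm D 7, Nat.mul_div_assoc 7 hAD]
          exact dvd_mul_left _ _
        have hlt := card_lt (by have := hD.1.1; omega) hAD hA.1 hco
        have hmu : mu A < mu D := by
          unfold mu
          rw [if_pos hD.2.1]
          split_ifs <;> omega
        obtain ⟨y, hy⟩ := ih' A (by
          rcases hP.1 with h | h
          · exact Or.inl h.1
          · exact Or.inr h.1) hmu
        have := val_21 hy hP (x := x A) (by rw [e]; exact hx A hA.2)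
        rw [e] at this
        exact this.dvd
      · have h0 : x A = 0 := by
          have := V21 n hFn h21 A hA.2 hP
          rw [hx A hA.2] at this
          exact pow_eq_zero_iff (by norm_num) |>.1 this
        rw [h0]
        exact dvd_zero _
    rw [← add_sum_erase _ _ hDm] at hd
    have hd2 : (2 : ℤ) ^ n.primeFactors.card ∣ x D := by
      have h1 : (2 : ℤ) ^ n.primeFactors.card ∣
          (vec7 n).card + (x D + ∑ A ∈ (pd n).erase D, x A) :=
        dvd_trans (pow_dvd_pow 2 (Nat.le_succ _)) hd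
      rw [hg] at h1
      have h2 := (dvd_add_right (Dvd.intro g rfl)).1 h1
      exact (dvd_add_left (Finset.dvd_sum hother)).1 h2
    have hcard : n.primeFactors.card = D.primeFactors.card + 1 := by
      rw [hn, card_mul hcop, Nat.Prime.primeFactors (by norm_num : Nat.Prime 7),
        Finset.card_singleton]
    obtain ⟨y, hy⟩ := hd2
    rw [hcard] at hy
    obtain ⟨c, hc⟩ := K0' D hD
    refine ⟨y, ⟨fun h => absurd hD.2.1 (Ai_3 h), fun _ => ⟨c, ?_, hc⟩⟩⟩
    have h3 : K7 7 := Or.inl ⟨(by norm_num : Nat.Prime 7).prime.squarefree, by norm_num, dvd_rfl,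
      by norm_num⟩
    have h4 := (hc 7 hcop).2 h3
    have h5 : (P7 D (D * 7) : ℚ) = (x D : ℚ) ^ 2 := by
      have := hx D hDm
      rw [← hn]
      exact_mod_cast this
    have h6 : ((cc (7 : ℕ) : ℤ) : ℚ) ^ 2 = 144 := by exact_mod_cast cc_seven
    rw [h5, h6, hy] at h4
    have h7 : (4 : ℚ) ^ D.primeFactors.card = (2 ^ D.primeFactors.card) ^ 2 := by
      rw [← pow_mul, mul_comm _ 2, pow_mul]
      norm_num
    rw [h7]
    rw [pow_succ] at h4
    push_cast at h4
    linear_combination (-1 / 16 : ℚ) * h4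

open Classical in
/-- **The parity statement for `Ai` and `A0`**: integers `y A` and the two systems of relations. -/
theorem t_YA (O3 : S_ORT3) (O21 : S_ORT21) (V3 : S_VAN3) (V21 : S_VAN21) (R : S_R7)
    (Rr : S_R7r) (KI : S_KAI) (K0' : S_KA0) :
    ∃ y : ℕ → ℤ, (∀ A, (Ai A ∨ A0 A) → YA A (y A)) ∧
    (∀ n, Fn n → 3 ∣ n → I7 n →
      (QQ n ↔ Odd ((pd n).filter fun A => Pr3 A (n / A) ∧ Odd (y A) ∧ QQ (n / A)).card)) ∧
    (∀ n, Fn n → 21 ∣ n →
      (QQ n ↔ Odd ((pd n).filter fun A => Pr21 A (n / A) ∧ Odd (y A) ∧ QQ (n / A)).card)) := by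
  have h := fun A (hA : Ai A ∨ A0 A) => exists_YA O3 O21 V3 V21 R Rr KI K0' (mu A) A hA le_rfl
  choose f hf using h
  refine ⟨fun A => if hA : Ai A ∨ A0 A then f A hA else 0, ?_, ?_, ?_⟩
  · intro A hA
    simp only [dif_pos hA]
    exact hf A hA
  · intro n hn h3 h7
    refine rel3 O3 V3 R hn h3 h7 fun A _ hP => ?_
    have hA : Ai A ∨ A0 A := by
      rcases hP.1 with h | h
      · exact Or.inl h.1
      · exact Or.inr h.1
    simp only [dif_pos hA]
    exact hf A hA
  · intro n hn h21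
    refine rel21 O21 V21 Rr hn h21 fun A _ hP => ?_
    have hA : Ai A ∨ A0 A := by
      rcases hP.1 with h | h
      · exact Or.inl h.1
      · exact Or.inr h.1
    simp only [dif_pos hA]
    exact hf A hA

end Pool.Agent.N877.P21G
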