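import Pool.Agent.N877.P21G.Par

/-!
# Project P21G: the parity induction for `Kn`
-/

set_option autoImplicit false

namespace Pool.Agent.N877.P21G

open Finset
open Pool.Agent.N969.P15 (Ev un Qc Qe)
open Pool.Agent.N969.P17G (sgnE)
open Pool.Agent.N969.RQ (Fd vec7 ud J o3)
open Pool.Agent.N855.RQp (Val sum_val)

lemma N7_one (n : ℕ) : N7 1 n = cn n ^ 2 := by
  unfold N7 cn sgnE
  rw [Nat.primeFactors_one]
  simp only [Finset.prod_empty, mul_one]
  rw [sq, Finset.sum_mul_sum]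

lemma Kn_gt {n : ℕ} (h : Kn n) : 4 < n := by
  obtain ⟨h1, h3, h7⟩ := h
  unfold I7 at h7
  rcases h1 with ⟨-, h4⟩ | ⟨k, rfl, -⟩
  · omega
  · omega

lemma val_xor {k : ℕ} {a b c : ℤ} {e f : Prop} (ha : Val k a e) (hb : Val k b f)
    (h : (2 : ℤ) ^ (k + 1) ∣ a + b + c) : Val k c (¬ (e ↔ f)) := by
  obtain ⟨u, h1, h2⟩ := ha
  obtain ⟨v, h3, h4⟩ := hb
  obtain ⟨w, h5⟩ := h
  refine ⟨2 * w - u - v, ?_, ?_⟩
  · rw [h1, h3, pow_succ] at h5
    linear_combination h5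
  · rw [← h2, ← h4]
    have e1 : 2 * w - u - v = 2 * (w - u - v) + (u + v) := by ring
    have h6 : Even (2 * (w - u - v)) := even_two_mul _
    rw [e1, Int.odd_add, ← Int.not_even_iff_odd, Int.even_add, ← Int.not_even_iff_odd,
      ← Int.not_even_iff_odd]
    tauto

lemma dvd_of_sq {a b : ℤ} (h : a ^ 2 = b ^ 2) {d : ℤ} (hd : d ∣ b) : d ∣ a := by
  rcases sq_eq_sq_iff_eq_or_eq_neg.1 h with h | h
  · rw [h]
    exact hd
  · rw [h]
    exact (dvd_neg).2 hd

open Classical in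
/-- the parity of the Gross sum of the class `Kn` -/
theorem parN (O : S_ORTN) (V : S_VANN') (R : S_R7) (KJ : S_KAJ) (JY : S_JY) {y : ℕ → ℤ}
    (hY : ∀ A, (Ai A ∨ A0 A) → YA A (y A)) :
    ∀ k n : ℕ, n ≤ k → Kn n → Val (n.primeFactors.card + 1) (cn n)
      (¬ (QQ n ↔ Odd ((pd n).filter fun A => Ai A ∧ K0 (n / A) ∧ Odd (y A) ∧
        QQ (n / A)).card)) := by
  intro k
  induction k using Nat.strong_induction_on with
  | _ k ih =>
  intro n hnk hn
  obtain ⟨x, c, hx, hd⟩ := O n hn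
  obtain ⟨g, hg, hq⟩ := R n hn.1 hn.2.2 (Kn_gt hn)
  have hn0 : 0 < n := hn.1.pos
  have h1m : 1 ∈ pd n := by
    unfold pd ud
    rw [mem_filter, mem_filter, Nat.mem_divisors]
    exact ⟨⟨⟨one_dvd n, hn0.ne'⟩, Nat.coprime_one_left _⟩, Or.inl rfl, by norm_num⟩
  have hxv : ∀ A ∈ pd n, Val (n.primeFactors.card + 1) (x A)
      (Ai A ∧ K0 (n / A) ∧ Odd (y A) ∧ QQ (n / A)) := by
    intro A hA
    obtain ⟨hAn, hAc, -, -⟩ := pd_mem hA
    have e : A * (n / A) = n := Nat.mul_div_cancel' hAn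
    by_cases hP : Ai A ∧ K0 (n / A)
    · have := val_I (hY A (Or.inl hP.1)) hP.1 hP.2 hAc (x := x A)
        (by rw [e]; exact (hx A hA).1)
      rw [e] at this
      exact this.congr (by tauto)
    · have h0 : x A = 0 := by
        have := (V n hn A hA).1 hP
        rw [(hx A hA).1] at this
        exact pow_eq_zero_iff (by norm_num) |>.1 this
      rw [h0]
      exact Val.zero _ fun h => hP ⟨h.1, h.2.1⟩
  have hc : ∀ A ∈ (pd n).erase 1, (2 : ℤ) ^ (n.primeFactors.card + 2) ∣ c A := by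
    intro A hA
    rw [mem_erase] at hA
    obtain ⟨hAn, hAc, -, -⟩ := pd_mem hA.2
    have e : A * (n / A) = n := Nat.mul_div_cancel' hAn
    by_cases hP : As A ∧ Kn (n / A)
    · have h1 := KJ A (n / A) hP.1 hP.2 hAc
      rw [e, (hx A hA.2).2] at h1
      obtain ⟨z, hz⟩ := JY A hP.1
      have hlt : n / A < n := Nat.div_lt_self hn0 hP.1.1.1
      obtain ⟨v, hv, -⟩ := ih (n / A) (lt_of_lt_of_le hlt hnk) (n / A) le_rfl hP.2
      have h2 : c A ^ 2 = (2 ^ (n.primeFactors.card + 2) * (z * v)) ^ 2 := by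
        have h3 : n.primeFactors.card = A.primeFactors.card + (n / A).primeFactors.card := by
          conv_lhs => rw [← e]
          exact card_mul hAc
        rw [h1, hv, h3]
        have h4 : (16 : ℤ) * J 21 o3 A 1 1 3 ^ 2 = 4 * (2 ^ A.primeFactors.card * z) ^ 2 := by
          rw [← hz]
          ring
        rw [h4]
        ring
      exact dvd_of_sq h2 (Dvd.intro _ rfl)
    · have h0 : c A = 0 := by
        have := (V n hn A hA.2).2 hA.1 hP
        rw [(hx A hA.2).2] at this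
        exact pow_eq_zero_iff (by norm_num) |>.1 this
      rw [h0]
      exact dvd_zero _
  rw [sum_add_distrib, ← add_sum_erase (pd n) c h1m] at hd
  have hd2 : (2 : ℤ) ^ (n.primeFactors.card + 1 + 1) ∣
      ((vec7 n).card : ℤ) + ∑ A ∈ pd n, x A + c 1 := by
    have e1 : ((vec7 n).card : ℤ) + (∑ A ∈ pd n, x A + (c 1 + ∑ A ∈ (pd n).erase 1, c A)) =
        (((vec7 n).card : ℤ) + ∑ A ∈ pd n, x A + c 1) + ∑ A ∈ (pd n).erase 1, c A := by ring
    rw [e1] at hd
    exact (dvd_add_left (Finset.dvd_sum hc)).1 hd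
  have hv := val_xor (⟨g, hg, hq⟩ : Val _ ((vec7 n).card : ℤ) (QQ n)) (sum_val hxv) hd2
  have h5 : cn n ^ 2 = c 1 ^ 2 := by
    rw [← (hx 1 h1m).2, N7_one]
  rcases sq_eq_sq_iff_eq_or_eq_neg.1 h5 with h | h
  · rw [h]
    exact hv
  · rw [h]
    exact hv.neg

end Pool.Agent.N877.P21G
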