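import Pool.Agent.N877.P21G.FinA
import Pool.Agent.N974.P21G.Rel
import Pool.Agent.N974.P21G.D1
import Pool.Agent.N816.PG21.C1
import Pool.Agent.N871.P21G.C2b
import Pool.Agent.N402.P21G.DE
import Pool.Agent.N402.P21G.DN
import Pool.Agent.N970.P21G.CP3
import Pool.Agent.N855.RQ.Fin21
import Pool.Agent.N218.RQ.Kas

/-!
# Project P21G: the leaves which are still open, and the normalized central values `sig A`
-/

set_option autoImplicit false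

namespace Pool.Agent.N877.P21G

open Finset
open Pool.Agent.N969.P15 (Ev un Qc Qe)
open Pool.Agent.N969.P17G (sgnE chP chM)
open Pool.Agent.N969.RQ (Fd vec7 ud J o3 R21 sl ld21 S_BILJ21 S_BILJ21n)
open Pool.Agent.N855.RQp (Val)
open Pool.Agent.N972.GC (CY CM)
open Pool.Agent.N974.P21G (sig t_CMPE)
open Pool.Agent.N877.P21 (cc Cls0)

/-- the leaves which are still open -/
structure Lvs : Prop where
  bil3 : S_BIL3
  bil21 : S_BIL21
  bili : S_BILI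
  biln : S_BILN
  biln2 : S_BILN2
  hen : S_HEN
  ort3 : S_ORT3
  ort21 : S_ORT21
  ortn : S_ORTN
  van3 : S_VAN3
  van21 : S_VAN21
  vann : S_VANN'
  cn7 : S_CN7
  he7 : S_HE7
  r7 : S_R7
  r7r : S_R7r
  xn : S_XN
  kapi : S_KAPi
  kaps : S_KAPs
  bilj : S_BILJ21
  biljn : S_BILJ21n

namespace Lvs

variable (h : Lvs)
include h

theorem de0 : S_DE0 := Pool.Agent.N402.P21G.t_DE0 Pool.Agent.N974.P21G.t_D1I
  Pool.Agent.N974.P21G.t_D1I2 Pool.Agent.N871.G21.t_C2E Pool.Agent.N975.S21.All.s_CP7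
  Pool.Agent.N975.S21.All.s_CP7E Pool.Agent.N712.P21.t_HE Pool.Agent.N712.P21.t_HEE

theorem de7 : S_DE7 := Pool.Agent.N402.P21G.t_DE7 Pool.Agent.N974.P21G.t_D121
  Pool.Agent.N974.P21G.t_D1212 Pool.Agent.N871.G21.t_C2E7 h.cn7 h.he7
  Pool.Agent.N970.P21G.t_PC7r Pool.Agent.N970.P21G.t_PC7rE Pool.Agent.N878.PC21.t_PC
  Pool.Agent.N878.PC21.t_PCE Pool.Agent.N712.P21.t_HE7 Pool.Agent.N712.P21.t_HE7E

theorem kai : S_KAI := t_KAI Pool.Agent.N816.PG21.t_C1I Pool.Agent.N816.PG21.t_C1B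
  Pool.Agent.N871.G21.t_C2I Pool.Agent.N871.G21.t_C23 Pool.Agent.N871.G21.t_C221 h.bili h.bil3
  h.bil21 h.kapi

theorem ka0 : S_KA0 := t_KA0 Pool.Agent.N974.P21G.t_D13 Pool.Agent.N974.P21G.t_D121
  Pool.Agent.N871.G21.t_C2D3 Pool.Agent.N871.G21.t_C2D21 h.bil3 h.bil21 h.de0 h.de7
  fun A _ => ⟨sig A, t_CMPE A⟩

theorem kaj : S_KAJ := t_KAJ Pool.Agent.N816.PG21.t_C1I Pool.Agent.N871.G21.t_C2S
  Pool.Agent.N871.G21.t_C2N h.biln h.xn h.kaps h.bilj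

/-- the integers `y` of the classes `Ai` and `A0` -/
theorem yy : ∃ y : ℕ → ℤ, ∀ A, (Ai A ∨ A0 A) → YA A (y A) ∧ (Odd (y A) ↔ CY (-7) A) :=
  t_Y h.ort3 h.ort21 h.van3 h.van21 h.r7 h.r7r h.kai h.ka0

theorem kyi : Pool.Agent.N855.RQp.S_KYI := by
  obtain ⟨y, hy⟩ := h.yy
  intro A hA
  obtain ⟨c, h9, hc⟩ := (hy A (Or.inl hA)).1.1 hA
  exact ⟨c, y A, fun m hm hk => (hc m hm).1 hk, h9, (hy A (Or.inl hA)).2⟩

theorem jy : S_JY := Pool.Agent.N855.RQp.jy21 h.bilj h.biljn h.r7 h.kyi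

/-- **the class `Kn`** -/
theorem cnv {n : ℕ} (hn : Kn n) : Val (n.primeFactors.card + 1) (cn n) (CM (-7) 3 n) := by
  obtain ⟨y, hy⟩ := h.yy
  exact t_YN h.ortn h.vann h.r7 h.kaj h.jy hy hn

theorem diagn : S_DIAGN := Pool.Agent.N402.P21G.t_DIAGN Pool.Agent.N973.P21.C.t_C1A
  Pool.Agent.N402.P15.t_C1B Pool.Agent.N402.P15.t_C1BE Pool.Agent.N871.G21.t_C2N
  Pool.Agent.N871.G21.t_C2N2 h.biln h.biln2 h.hen h.he7

/-! ### the values of `sig` -/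

/-- `Ai × K0`, the symbol of `-m` -/
theorem pairDI {A m : ℕ} (hA : Ai A) (hm : K0 m) (hc : Nat.Coprime A m) :
    16 * ∑ u ∈ un A, chP A u * EM m u A = - P7 A (A * m) := by
  have h3 : ¬ 3 ∣ A * m := n3_mul (by have := hA.2.1; omega) (by have := K0_3 hm; omega)
  have h7 : ¬ 7 ∣ A * m := n7_mul (Ai_7 hA) (K0_7 hm)
  rw [Pool.Agent.N974.P21G.t_D1I A m (Or.inr hA.1) (Fn_K0 hm) hc (cop21 h3 h7),
    ← h.bili A m ⟨hA, hm, hc⟩, sum_WM, filt_pos h7]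
  have e : ∑ T ∈ (range (A * m)).filter (fun T => 3 ∣ T ∧ 7 ∣ A * m - T), WM m A (A * m - T) T =
      - ∑ T ∈ (range (A * m)).filter (fun T => 3 ∣ T ∧ 7 ∣ A * m - T), sgnE 1 A (A * m) T *
        L37 (A * m) (2 * T - (A * m : ℕ)) (4 * (A * m - T) * T) := by
    rw [← Finset.sum_neg_distrib]
    refine Finset.sum_congr rfl fun T hT => ?_
    rw [Finset.mem_filter, Finset.mem_range] at hT
    obtain ⟨h1, h2, h4⟩ := hT
    have h0 : 0 < T := by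
      rcases Nat.eq_zero_or_pos T with rfl | h0
      · exact absurd (by simpa using h4) h7
      · exact h0
    exact Pool.Agent.N871.G21.t_C2DI A m ⟨hA, hm, hc⟩ T h0 h1 h2 h4
  rw [e]
  ring

omit h in
/-- an auxiliary prime -/
theorem aux (A : ℕ) (hA : 0 < A) : ∃ l : ℕ, l.Prime ∧ Cls0 l ∧ Nat.Coprime A l ∧ ¬ l ∣ A ∧
    (cc l : ℝ) ≠ 0 := by
  obtain ⟨l, hl, h0, hlA⟩ := Pool.Agent.N218.RQ.F21.exists_l A hA
  exact ⟨l, hl, h0, ((Nat.Prime.coprime_iff_not_dvd hl).2 hlA).symm, hlA, by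
    exact_mod_cast Pool.Agent.N218.RQ.F21.cc_ne hl h0⟩

theorem sig_Ai {A : ℕ} {y : ℤ} (hA : Ai A) (hY : YA A y) :
    2 * sig A = -(4 ^ A.primeFactors.card * (y : ℝ) ^ 2) := by
  obtain ⟨l, hl, h0, hco, hlA, hcc⟩ := aux A (by have := hA.1.1; omega)
  obtain ⟨c, h9, hc⟩ := hY.1 hA
  have hK : K0 l := Or.inl h0
  have h1 := (hc l hco).1 hK
  have h2 := congrArg (Int.cast (R := ℝ)) (h.pairDI hA hK hco)
  have h3 := (t_CMPE A l hco).1 (Or.inl hA) hK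
  have h4 := congrArg (Int.cast (R := ℝ)) (h.de0 l hK)
  have h5 : (P7 A (A * l) : ℝ) = (c : ℝ) * (cc l : ℝ) ^ 2 := by exact_mod_cast h1
  have h6 : 9 * (c : ℝ) = 4 ^ A.primeFactors.card * (y : ℝ) ^ 2 := by exact_mod_cast h9
  rw [← h6]
  apply mul_right_cancel₀ (pow_ne_zero 2 hcc)
  push_cast at h2 h3 h4 ⊢
  rw [← h4]
  rw [← h4] at h5
  rw [h3] at h2
  linear_combination 9 * h2 - 9 * h5

theorem sig_A0 {A : ℕ} {y : ℤ} (hA : A0 A) (hY : YA A y) :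
    4 * sig A = -(4 ^ A.primeFactors.card * (y : ℝ) ^ 2) := by
  obtain ⟨l, hl, h0, hco, hlA, hcc⟩ := aux A (by have := hA.1.1; omega)
  obtain ⟨c, h9, hc⟩ := hY.2 hA
  have hK : K0 l := Or.inl h0
  have h1 := (hc l hco).1 hK
  have h2 := (t_KA0' Pool.Agent.N974.P21G.t_D13 Pool.Agent.N974.P21G.t_D121
    Pool.Agent.N871.G21.t_C2D3 Pool.Agent.N871.G21.t_C2D21 h.bil3 h.bil21 h.de0 h.de7 hA
    (t_CMPE A) hco).1 hK
  have h5 : (P7 A (A * l) : ℝ) = (c : ℝ) * (cc l : ℝ) ^ 2 := by exact_mod_cast h1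
  have h6 : 9 * (c : ℝ) = 4 ^ A.primeFactors.card * (y : ℝ) ^ 2 := by exact_mod_cast h9
  rw [← h6]
  apply mul_right_cancel₀ (pow_ne_zero 2 hcc)
  linear_combination 9 * h2 - 9 * h5

theorem sig_As {A : ℕ} (hA : As A) : sig A = -4 * (J 21 o3 A 1 1 3 : ℝ) ^ 2 := by
  obtain ⟨l, hl, h0, hco, hlA, hcc⟩ := aux A (by have := hA.1.1; omega)
  have hR : R21 A := hA
  have hK : K0 l := Or.inl h0
  have h3 : ¬ 3 ∣ A * l := n3_mul (by have := hA.2.1; omega) (by have := K0_3 hK; omega)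
  have h7 : ¬ 7 ∣ A * l := n7_mul (As_7 hA) (K0_7 hK)
  have h1 := Pool.Agent.N974.P21G.t_D1I A l (Or.inr hA.1) (Fn_K0 hK) hco (cop21 h3 h7)
  rw [sum_WM, filt_pos h7] at h1
  have e : ∑ T ∈ (range (A * l)).filter (fun T => 3 ∣ T ∧ 7 ∣ A * l - T), WM l A (A * l - T) T =
      - ∑ T ∈ (range (A * l)).filter (fun T => 3 ∣ T ∧ 7 ∣ A * l - T),
        sl A l T * ld21 (A * l) T := by
    rw [← Finset.sum_neg_distrib]
    refine Finset.sum_congr rfl fun T hT => ?_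
    rw [Finset.mem_filter, Finset.mem_range] at hT
    obtain ⟨h1, h2, h4⟩ := hT
    have h0' : 0 < T := by
      rcases Nat.eq_zero_or_pos T with rfl | h0'
      · exact absurd (by simpa using h4) h7
      · exact h0'
    rw [WM_WD hA.1 hl h0.2.1]
    exact Pool.Agent.N975.RQ.Du.t_C2D21 A l hR hl h0 hlA T h0' h1 h2 h4
  rw [e] at h1
  have h2 := Pool.Agent.N218.RQ.dual21 h.bilj hR hl h0 hlA
  have h5 : 18 * ∑ u ∈ un A, chP A u * EM l u A = -(J 21 o3 A 1 1 3 ^ 2 * cc l ^ 2) := by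
    rw [h1]
    linarith
  have h6 := congrArg (Int.cast (R := ℝ)) h5
  have h8 := (t_CMPE A l hco).1 (Or.inr hA) hK
  have h4 := congrArg (Int.cast (R := ℝ)) (h.de0 l hK)
  apply mul_right_cancel₀ (pow_ne_zero 2 hcc)
  push_cast at h4 h6 h8 ⊢
  rw [h8] at h6
  linear_combination 4 * h6 - sig A * h4

/-! ### the rank form of the conjecture -/

open Pool.Agent.N974.RQ (mA) in
theorem rank_Ai {A : ℕ} (hA : Ai A) (hC : CY (-7) A)
    (hfin : Pool.Agent.N975.S21.FinPts (mA A : ℤ)) :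
    Pool.Agent.Y687.RankBSD (-5211 * (mA A : ℤ) ^ 2) (-31050 * (mA A : ℤ) ^ 3) := by
  obtain ⟨y, hy⟩ := h.yy
  refine Pool.Agent.N974.P21G.rank_sig hA.1 (fun h0 => ?_) hfin
  have h1 := h.sig_Ai hA (hy A (Or.inl hA)).1
  rw [h0, mul_zero] at h1
  have h2 : (y A : ℝ) = 0 := by
    by_contra h3
    have : (0 : ℝ) < 4 ^ A.primeFactors.card * (y A : ℝ) ^ 2 := by positivity
    linarith
  have h3 : y A = 0 := by exact_mod_cast h2
  have h4 := (hy A (Or.inl hA)).2.2 hC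
  rw [h3] at h4
  exact absurd h4 (by decide)

open Pool.Agent.N974.RQ (mA) in
theorem rank_A0 {A : ℕ} (hA : A0 A) (hC : CY (-7) A)
    (hfin : Pool.Agent.N975.S21.FinPts (mA A : ℤ)) :
    Pool.Agent.Y687.RankBSD (-5211 * (mA A : ℤ) ^ 2) (-31050 * (mA A : ℤ) ^ 3) := by
  obtain ⟨y, hy⟩ := h.yy
  refine Pool.Agent.N974.P21G.rank_sig hA.1 (fun h0 => ?_) hfin
  have h1 := h.sig_A0 hA (hy A (Or.inr hA)).1
  rw [h0, mul_zero] at h1
  have h2 : (y A : ℝ) = 0 := by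
    by_contra h3
    have : (0 : ℝ) < 4 ^ A.primeFactors.card * (y A : ℝ) ^ 2 := by positivity
    linarith
  have h3 : y A = 0 := by exact_mod_cast h2
  have h4 := (hy A (Or.inr hA)).2.2 hC
  rw [h3] at h4
  exact absurd h4 (by decide)

end Lvs

end Pool.Agent.N877.P21G
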